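import Pool.Agent.H41.Ev.Defs

/-!
# Similarities (MP_898b17_an, M9)

The map `m x = s • e x`, `e` a linear isometry, `s > 0`, and its effect on `H¹₀`.
-/

open MeasureTheory Set Metric Filter Topology ContDiff Module
open scoped ENNReal RealInnerProductSpace

namespace Pool.Agent.H41.Ev

set_option maxHeartbeats 400000
set_option linter.unusedSectionVars false

section Sim

variable {E E' : Type*} [NormedAddCommGroup E] [InnerProductSpace ℝ E] [FiniteDimensional ℝ E]
  [CompleteSpace E] [MeasurableSpace E] [BorelSpace E]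
  [NormedAddCommGroup E'] [InnerProductSpace ℝ E'] [FiniteDimensional ℝ E']
  [CompleteSpace E'] [MeasurableSpace E'] [BorelSpace E']
variable (e : E ≃ₗᵢ[ℝ] E') {s : ℝ}

/-- The similarity as a homeomorphism. -/
noncomputable def simHomeo (hs : s ≠ 0) : E ≃ₜ E' :=
  e.toHomeomorph.trans (Homeomorph.smulOfNeZero s hs)

theorem simHomeo_apply (hs : s ≠ 0) (x : E) : simHomeo e hs x = s • e x := rfl

theorem map_sim (hs : s ≠ 0) : Measure.map (fun x : E => s • e x) (volume : Measure E) =
    ENNReal.ofReal |(s ^ finrank ℝ E')⁻¹| • (volume : Measure E') := by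
  have h1 : (fun x : E => s • e x) = (fun y : E' => s • y) ∘ e := rfl
  rw [h1, ← Measure.map_map (measurable_const_smul s) e.continuous.measurable,
    e.measurePreserving.map_eq, Measure.map_addHaar_smul volume hs]

theorem sim_eLpNorm (hs : s ≠ 0) {F : Type*} [NormedAddCommGroup F] (f : E' → F) :
    eLpNorm (fun x : E => f (s • e x)) 2 volume =
      (ENNReal.ofReal |(s ^ finrank ℝ E')⁻¹|) ^ (1 / (2 : ℝ≥0∞)).toReal *
        eLpNorm f 2 volume := by
  have h1 := (simHomeo e hs).measurableEmbedding.eLpNorm_map_measure (μ := volume) (g := f) (p := 2)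
  have h2 : (f ∘ simHomeo e hs) = fun x : E => f (s • e x) := rfl
  rw [← h2, ← h1]
  have h3 : Measure.map (simHomeo e hs) (volume : Measure E) =
    ENNReal.ofReal |(s ^ finrank ℝ E')⁻¹| • (volume : Measure E') := map_sim e hs
  rw [h3, eLpNorm_smul_measure_of_ne_top (by norm_num), smul_eq_mul]

theorem sim_integral (hs : s ≠ 0) (f : E' → ℝ) :
    ∫ x : E, f (s • e x) = |(s ^ finrank ℝ E')⁻¹| * ∫ y, f y := by
  have h1 := (simHomeo e hs).measurableEmbedding.integral_map (μ := volume) f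
  have h3 : Measure.map (simHomeo e hs) (volume : Measure E) =
    ENNReal.ofReal |(s ^ finrank ℝ E')⁻¹| • (volume : Measure E') := map_sim e hs
  rw [h3, integral_smul_measure, ENNReal.toReal_ofReal (abs_nonneg _)] at h1
  exact h1.symm

theorem sim_volume (hs : s ≠ 0) (Ω : Set E') :
    volume ((fun x : E => s • e x) ⁻¹' Ω) = ENNReal.ofReal |(s ^ finrank ℝ E')⁻¹| * volume Ω := by
  have h1 := (simHomeo e hs).toMeasurableEquiv.map_apply (μ := volume) Ω
  have h3 : Measure.map (simHomeo e hs).toMeasurableEquiv (volume : Measure E) =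
    ENNReal.ofReal |(s ^ finrank ℝ E')⁻¹| • (volume : Measure E') := map_sim e hs
  rw [h3] at h1
  exact h1.symm

theorem sim_gradient {f : E' → ℝ} {x : E} (hf : DifferentiableAt ℝ f (s • e x)) :
    gradient (fun x => f (s • e x)) x = s • e.symm (gradient f (s • e x)) := by
  apply ext_inner_right ℝ
  intro b
  have h1 : HasFDerivAt (fun x : E => s • e x) (s • (e.toContinuousLinearEquiv : E →L[ℝ] E')) x :=
    (e.toContinuousLinearEquiv.hasFDerivAt).const_smul s
  have h2 := hf.hasFDerivAt.comp x h1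
  have h3 : fderiv ℝ (fun x => f (s • e x)) x =
      (fderiv ℝ f (s • e x)).comp (s • (e.toContinuousLinearEquiv : E →L[ℝ] E')) := h2.fderiv
  have h4 : ⟪gradient (fun x => f (s • e x)) x, b⟫ = fderiv ℝ (fun x => f (s • e x)) x b := by
    unfold gradient
    rw [InnerProductSpace.toDual_symm_apply]
  have h5 : ⟪gradient f (s • e x), s • e b⟫ = fderiv ℝ f (s • e x) (s • e b) := by
    unfold gradient
    rw [InnerProductSpace.toDual_symm_apply]
  rw [h4, h3, inner_smul_left, ← LinearIsometryEquiv.inner_map_map e, e.apply_symm_apply]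
  change fderiv ℝ f (s • e x) (s • e b) = _
  rw [← h5, inner_smul_right]
  rfl

theorem sim_isTest (hs : s ≠ 0) {Ω : Set E'} {φ : E' → ℝ} (h : IsTest Ω φ) :
    IsTest ((fun x : E => s • e x) ⁻¹' Ω) (fun x => φ (s • e x)) := by
  refine ⟨?_, ?_, ?_⟩
  · have h1 : ContDiff ℝ ∞ (fun x : E => s • e x) :=
      contDiff_const.smul e.toContinuousLinearEquiv.contDiff
    exact h.1.comp h1
  · exact h.2.1.comp_homeomorph (simHomeo e hs)
  · have h2 : tsupport (fun x : E => φ (s • e x)) ⊆ (fun x : E => s • e x) ⁻¹' tsupport φ := by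
      apply closure_minimal
      · intro x hx
        exact subset_tsupport φ hx
      · exact (isClosed_tsupport φ).preimage (simHomeo e hs).continuous
    exact h2.trans (preimage_mono h.2.2)

theorem sim_memLp (hs : s ≠ 0) {F : Type*} [NormedAddCommGroup F] {f : E' → F}
    (hf : MemLp f 2 volume) : MemLp (fun x : E => f (s • e x)) 2 volume := by
  refine ⟨?_, ?_⟩
  · have h1 : AEStronglyMeasurable f (Measure.map (fun x : E => s • e x) volume) := by
      rw [map_sim e hs]
      exact hf.1.smul_measure _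
    exact h1.comp_measurable (simHomeo e hs).continuous.measurable
  · rw [sim_eLpNorm e hs]
    exact ENNReal.mul_lt_top (ENNReal.rpow_lt_top_of_nonneg ENNReal.toReal_nonneg
      ENNReal.ofReal_ne_top) hf.2

theorem sim_tendsto (hs : s ≠ 0) {F : Type*} [NormedAddCommGroup F] {fn : ℕ → E' → F} {f : E' → F}
    (h : Tendsto (fun n => eLpNorm (fun x => fn n x - f x) 2 volume) atTop (𝓝 0)) :
    Tendsto (fun n => eLpNorm (fun x : E => fn n (s • e x) - f (s • e x)) 2 volume) atTop
      (𝓝 0) := by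
  have h1 : ∀ n, eLpNorm (fun x : E => fn n (s • e x) - f (s • e x)) 2 volume =
      (ENNReal.ofReal |(s ^ finrank ℝ E')⁻¹|) ^ (1 / (2 : ℝ≥0∞)).toReal *
        eLpNorm (fun x => fn n x - f x) 2 volume := fun n =>
    sim_eLpNorm e hs (fun x => fn n x - f x)
  simp only [h1]
  have h2 := ENNReal.Tendsto.const_mul
    (a := (ENNReal.ofReal |(s ^ finrank ℝ E')⁻¹|) ^ (1 / (2 : ℝ≥0∞)).toReal) h
    (Or.inr (ENNReal.rpow_lt_top_of_nonneg ENNReal.toReal_nonneg ENNReal.ofReal_ne_top).ne)
  simpa using h2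

theorem sim_h10 (hs : s ≠ 0) {Ω : Set E'} {u : E' → ℝ} {G : E' → E'} (h : H10 Ω u G) :
    H10 ((fun x : E => s • e x) ⁻¹' Ω) (fun x => u (s • e x))
      (fun x => s • e.symm (G (s • e x))) := by
  obtain ⟨φ, h1, h2, h3⟩ := h.approx
  have hG : MemLp (fun y : E' => s • e.symm (G y)) 2 volume := by
    apply MemLp.const_smul
    exact e.symm.toContinuousLinearEquiv.toContinuousLinearMap.comp_memLp' h.2
  refine ⟨sim_memLp e hs h.1, sim_memLp e hs hG, fun n x => φ n (s • e x),
    fun n => sim_isTest e hs (h1 n), sim_tendsto e hs h2, ?_⟩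
  have h4 : Tendsto (fun n => eLpNorm (fun y : E' => s • e.symm (gradient (φ n) y) -
      s • e.symm (G y)) 2 volume) atTop (𝓝 0) := by
    have h5 : ∀ n, eLpNorm (fun y : E' => s • e.symm (gradient (φ n) y) -
      s • e.symm (G y)) 2 volume = ‖s‖ₑ * eLpNorm (fun y => gradient (φ n) y - G y) 2 volume := by
      intro n
      have h6 : eLpNorm (fun y : E' => s • (gradient (φ n) y - G y)) 2 volume =
          ‖s‖ₑ * eLpNorm (fun y => gradient (φ n) y - G y) 2 volume :=
        eLpNorm_const_smul s (fun y => gradient (φ n) y - G y) 2 volume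
      rw [← h6]
      apply eLpNorm_congr_norm_ae
      refine Eventually.of_forall fun y => ?_
      rw [← smul_sub, ← map_sub, norm_smul, norm_smul, LinearIsometryEquiv.norm_map]
    simp only [h5]
    have h7 := ENNReal.Tendsto.const_mul (a := ‖s‖ₑ) h3 (Or.inr (by simp))
    simpa using h7
  have h8 := sim_tendsto e hs h4
  refine h8.congr fun n => ?_
  congr 1
  ext1 x
  rw [sim_gradient e ((h1 n).1.differentiable (by simp) _)]

/-- Multiples (general dimension). -/
theorem gen_const_mul {Ω : Set E} {u : E → ℝ} {G : E → E} (h : H10 Ω u G) (c : ℝ) :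
    H10 Ω (fun z => c * u z) (fun z => c • G z) := by
  obtain ⟨φ, h1, h2, h3⟩ := h.approx
  refine ⟨h.1.const_mul c, h.2.const_smul c, fun n z => c * φ n z, fun n =>
    ⟨contDiff_const.mul (h1 n).1, (h1 n).2.1.mul_left, tsupport_mul_subset_right.trans (h1 n).2.2⟩,
    ?_, ?_⟩
  · have hs : Tendsto (fun n => ‖c‖ₑ * eLpNorm (fun z => φ n z - u z) 2 volume) atTop (𝓝 0) := by
      have := ENNReal.Tendsto.const_mul (a := ‖c‖ₑ) h2 (Or.inr (by simp))
      simpa using this
    refine hs.congr fun n => ?_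
    rw [← eLpNorm_const_smul]
    congr 1
    ext z
    simp only [Pi.smul_apply, smul_eq_mul]
    ring
  · have hs : Tendsto (fun n => ‖c‖ₑ * eLpNorm (fun z => gradient (φ n) z - G z) 2 volume) atTop
        (𝓝 0) := by
      have := ENNReal.Tendsto.const_mul (a := ‖c‖ₑ) h3 (Or.inr (by simp))
      simpa using this
    refine hs.congr fun n => ?_
    rw [← eLpNorm_const_smul]
    congr 1
    ext1 z
    simp only [Pi.smul_apply]
    have h4 : gradient (fun z => c * φ n z) z = c • gradient (φ n) z := by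
      apply ext_inner_right ℝ
      intro b
      rw [inner_smul_left]
      unfold gradient
      rw [InnerProductSpace.toDual_symm_apply, InnerProductSpace.toDual_symm_apply,
        fderiv_const_mul ((h1 n).1.differentiable (by simp) _)]
      rfl
    rw [h4, smul_sub]

theorem sim_symm_preimage (hs : s ≠ 0) (Ω : Set E') :
    (fun y : E' => s⁻¹ • e.symm y) ⁻¹' ((fun x : E => s • e x) ⁻¹' Ω) = Ω := by
  ext y
  simp [smul_smul, hs]

theorem sim_isTorsion (hs : s ≠ 0) {Ω : Set E'} {w : E' → ℝ} {W : E' → E'}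
    (h : IsTorsion Ω w W) :
    IsTorsion ((fun x : E => s • e x) ⁻¹' Ω) (fun x => (s ^ 2)⁻¹ * w (s • e x))
      (fun x => s⁻¹ • e.symm (W (s • e x))) := by
  constructor
  · have h1 := gen_const_mul (sim_h10 e hs h.1) (s ^ 2)⁻¹
    have e1 : (fun z => (s ^ 2)⁻¹ • (s • e.symm (W (s • e z)))) =
        fun x => s⁻¹ • e.symm (W (s • e x)) := by
      ext1 x
      rw [smul_smul]
      congr 1
      field_simp
    rwa [e1] at h1
  · intro φ hφ
    have h1 : IsTest Ω (fun y => φ (s⁻¹ • e.symm y)) := by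
      have := sim_isTest e.symm (inv_ne_zero hs) hφ
      rwa [sim_symm_preimage e hs] at this
    have h2 := h.2 _ h1
    have h3 : ∀ x : E, s⁻¹ • e.symm (s • e x) = x := by
      intro x
      simp [smul_smul, hs]
    have h4 : ∫ x, φ x = |(s ^ finrank ℝ E')⁻¹| * ∫ y, φ (s⁻¹ • e.symm y) := by
      rw [← sim_integral e hs]
      simp only [h3]
    rw [h4, ← h2, ← sim_integral e hs]
    congr 1
    ext1 x
    have h5 : gradient (fun y => φ (s⁻¹ • e.symm y)) (s • e x) = s⁻¹ • e (gradient φ x) := by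
      have := sim_gradient e.symm (s := s⁻¹) (f := φ) (x := s • e x)
        (hφ.1.differentiable (by simp) _)
      rw [h3] at this
      exact this
    rw [h5, inner_smul_right, inner_smul_left, ← LinearIsometryEquiv.inner_map_map e,
      e.apply_symm_apply]
    rfl

theorem sim_RQ (hs : s ≠ 0) {Ω : Set E'} {c : ℝ} (h : RQ Ω c) :
    RQ ((fun x : E => s • e x) ⁻¹' Ω) (s ^ 2 * c) := by
  intro φ hφ
  have h1 : IsTest Ω (fun y => φ (s⁻¹ • e.symm y)) := by
    have := sim_isTest e.symm (inv_ne_zero hs) hφ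
    rwa [sim_symm_preimage e hs] at this
  have h2 := h _ h1
  have h3 : ∀ x : E, s⁻¹ • e.symm (s • e x) = x := by
    intro x
    simp [smul_smul, hs]
  have h4 : ∫ x, φ x ^ 2 = |(s ^ finrank ℝ E')⁻¹| * ∫ y, φ (s⁻¹ • e.symm y) ^ 2 := by
    rw [← sim_integral e hs (fun y => φ (s⁻¹ • e.symm y) ^ 2)]
    simp only [h3]
  have h5 : ∀ x, gradient (fun y => φ (s⁻¹ • e.symm y)) (s • e x) = s⁻¹ • e (gradient φ x) := by
    intro x
    have := sim_gradient e.symm (s := s⁻¹) (f := φ) (x := s • e x)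
      (hφ.1.differentiable (by simp) _)
    rw [h3] at this
    exact this
  have h6 : ∫ x, ‖gradient φ x‖ ^ 2 = s ^ 2 * (|(s ^ finrank ℝ E')⁻¹| *
      ∫ y, ‖gradient (fun y => φ (s⁻¹ • e.symm y)) y‖ ^ 2) := by
    rw [← sim_integral e hs (fun y => ‖gradient (fun y => φ (s⁻¹ • e.symm y)) y‖ ^ 2),
      ← integral_const_mul]
    congr 1
    ext1 x
    rw [h5, norm_smul, LinearIsometryEquiv.norm_map, mul_pow, norm_inv, Real.norm_eq_abs, inv_pow,
      sq_abs]
    field_simp
  rw [h4, h6]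
  have h7 : 0 ≤ s ^ 2 * |(s ^ finrank ℝ E')⁻¹| := by positivity
  calc s ^ 2 * c * (|(s ^ finrank ℝ E')⁻¹| * ∫ y, φ (s⁻¹ • e.symm y) ^ 2)
      = (s ^ 2 * |(s ^ finrank ℝ E')⁻¹|) * (c * ∫ y, φ (s⁻¹ • e.symm y) ^ 2) := by ring
    _ ≤ (s ^ 2 * |(s ^ finrank ℝ E')⁻¹|) *
        ∫ y, ‖gradient (fun y => φ (s⁻¹ • e.symm y)) y‖ ^ 2 := mul_le_mul_of_nonneg_left h2 h7
    _ = _ := by ring

/-- The set of Rayleigh quotients is invariant under isometries. -/
theorem iso_lam (Ω : Set E') : lam ((fun x : E => e x) ⁻¹' Ω) = lam Ω := by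
  unfold lam
  congr 1
  apply Subset.antisymm
  · rintro t ⟨u, G, h, h0, ht⟩
    have h1 := sim_h10 e.symm (one_ne_zero (α := ℝ)) h
    have e1 : (fun y : E' => (1 : ℝ) • e.symm y) ⁻¹' ((fun x : E => e x) ⁻¹' Ω) = Ω := by
      ext y; simp
    rw [e1] at h1
    have h2 := sim_integral e.symm (one_ne_zero (α := ℝ)) (fun y => u y ^ 2)
    have h3 := sim_integral e.symm (one_ne_zero (α := ℝ)) (fun y => ‖G y‖ ^ 2)
    refine ⟨_, _, h1, ?_, ?_⟩
    · rw [h2]; simpa using h0
    · rw [h2]
      simp only [one_smul, LinearIsometryEquiv.norm_map] at h3 ⊢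
      rw [h3, ht]
      simp
  · rintro t ⟨u, G, h, h0, ht⟩
    have h1 := sim_h10 e (one_ne_zero (α := ℝ)) h
    have e1 : (fun x : E => (1 : ℝ) • e x) ⁻¹' Ω = (fun x : E => e x) ⁻¹' Ω := by
      ext y; simp
    rw [e1] at h1
    have h2 := sim_integral e (one_ne_zero (α := ℝ)) (fun y => u y ^ 2)
    have h3 := sim_integral e (one_ne_zero (α := ℝ)) (fun y => ‖G y‖ ^ 2)
    refine ⟨_, _, h1, ?_, ?_⟩
    · rw [h2]; simpa using h0
    · rw [h2]
      simp only [one_smul, LinearIsometryEquiv.norm_map] at h3 ⊢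
      rw [h3, ht]
      simp

theorem iso_isTorsion {Ω : Set E'} {w : E' → ℝ} {W : E' → E'} (h : IsTorsion Ω w W) :
    IsTorsion ((fun x : E => e x) ⁻¹' Ω) (fun x => w (e x)) (fun x => e.symm (W (e x))) := by
  have := sim_isTorsion e (one_ne_zero (α := ℝ)) h
  simpa using this

theorem iso_integral (f : E' → ℝ) : ∫ x : E, f (e x) = ∫ y, f y := by
  have := sim_integral e (one_ne_zero (α := ℝ)) f
  simpa using this

theorem iso_volume (Ω : Set E') : volume ((fun x : E => e x) ⁻¹' Ω) = volume Ω := by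
  have := sim_volume e (one_ne_zero (α := ℝ)) Ω
  simpa using this

/-- Invariance of the torsional rigidity under isometries, given uniqueness on one side. -/
theorem iso_torsion {Ω : Set E'}
    (hex : ∃ w W, IsTorsion ((fun x : E => e x) ⁻¹' Ω) w W)
    (huniq : ∀ w W w' W', IsTorsion ((fun x : E => e x) ⁻¹' Ω) w W →
      IsTorsion ((fun x : E => e x) ⁻¹' Ω) w' W' → ∫ x, w x = ∫ x, w' x) :
    torsion ((fun x : E => e x) ⁻¹' Ω) = torsion Ω := by
  have h1 : ∃ w W, IsTorsion Ω w W := by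
    obtain ⟨w, W, h⟩ := hex
    have h2 := iso_isTorsion e.symm h
    have e1 : (fun y : E' => e.symm y) ⁻¹' ((fun x : E => e x) ⁻¹' Ω) = Ω := by
      ext y; simp
    rw [e1] at h2
    exact ⟨_, _, h2⟩
  unfold torsion
  rw [dif_pos hex, dif_pos h1]
  obtain ⟨W, hW⟩ := h1.choose_spec
  obtain ⟨V, hV⟩ := hex.choose_spec
  rw [huniq _ _ _ _ hV (iso_isTorsion e hW), iso_integral e]

end Sim

end Pool.Agent.H41.Ev
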