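import Pool.Agent.H41.Ev.LatDefs

/-!
# Grid squares: measure, multiplicity (MP_898b17_an, M8 (B))
-/

open MeasureTheory Set Metric Filter Topology ContDiff
open scoped ENNReal NNReal RealInnerProductSpace

namespace Pool.Agent.H41.Ev

set_option maxHeartbeats 400000

theorem mem_hsq {ρ : ℝ} (hρ : 0 < ρ) {a : ℤ × ℤ} {z : ℂ} : z ∈ hsq ρ a ↔
    (a.1 * ρ ≤ z.re ∧ z.re < (a.1 + 1) * ρ) ∧ (a.2 * ρ ≤ z.im ∧ z.im < (a.2 + 1) * ρ) := by
  unfold hsq cellOf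
  rw [mem_ofPred_eq, Prod.ext_iff]
  simp only [Int.floor_eq_iff, le_div_iff₀ hρ, div_lt_iff₀ hρ]

theorem hsq_subset {ρ : ℝ} (hρ : 0 < ρ) (a : ℤ × ℤ) : hsq ρ a ⊆ Sq (ρ / 2) (ctr ρ a) := by
  intro z hz
  rw [mem_hsq hρ] at hz
  obtain ⟨⟨h1, h2⟩, h3, h4⟩ := hz
  constructor
  · simp only [ctr]
    rw [abs_le]
    constructor <;> nlinarith
  · simp only [ctr]
    rw [abs_le]
    constructor <;> nlinarith

theorem hsq_eq {ρ : ℝ} (hρ : 0 < ρ) (a : ℤ × ℤ) : hsq ρ a =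
    Complex.measurableEquivRealProd ⁻¹' (Ico (a.1 * ρ) ((a.1 + 1) * ρ) ×ˢ
      Ico (a.2 * ρ) ((a.2 + 1) * ρ)) := by
  ext z
  rw [mem_hsq hρ]
  simp [Complex.measurableEquivRealProd]

theorem measurableSet_hsq {ρ : ℝ} (hρ : 0 < ρ) (a : ℤ × ℤ) : MeasurableSet (hsq ρ a) := by
  rw [hsq_eq hρ]
  exact Complex.measurableEquivRealProd.measurable (measurableSet_Ico.prod measurableSet_Ico)

theorem volume_hsq {ρ : ℝ} (hρ : 0 < ρ) (a : ℤ × ℤ) :
    volume (hsq ρ a) = ENNReal.ofReal (ρ ^ 2) := by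
  rw [hsq_eq hρ, Complex.volume_preserving_equiv_real_prod.measure_preimage
    (measurableSet_Ico.prod measurableSet_Ico).nullMeasurableSet, Measure.volume_eq_prod,
    Measure.prod_prod, Real.volume_Ico, Real.volume_Ico, ← ENNReal.ofReal_mul]
  · congr 1; ring
  · linarith [hρ, add_mul (a.1 : ℝ) 1 ρ, one_mul ρ]

theorem Sq_measurable (t : ℝ) (p : ℂ) : MeasurableSet (Sq t p) := by
  have h1 : IsClosed (Sq t p) := by
    apply IsClosed.inter
    · exact isClosed_le ((Complex.continuous_re.sub continuous_const).abs) continuous_const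
    · exact isClosed_le ((Complex.continuous_im.sub continuous_const).abs) continuous_const
  exact h1.measurableSet

/-- Multiplicity at most 81. -/
theorem multiplicity {ρ : ℝ} (hρ : 0 < ρ) (F : Finset (ℤ × ℤ)) (z : ℂ) :
    ∑ a ∈ F, (Sq (4 * ρ) (ctr ρ a)).indicator (fun _ => (1 : ℝ)) z ≤ 81 := by
  classical
  have h1 : ∑ a ∈ F, (Sq (4 * ρ) (ctr ρ a)).indicator (fun _ => (1 : ℝ)) z =
      ((F.filter fun a => z ∈ Sq (4 * ρ) (ctr ρ a)).card : ℝ) := by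
    rw [Finset.card_filter, Nat.cast_sum]
    apply Finset.sum_congr rfl
    intro a _
    by_cases h : z ∈ Sq (4 * ρ) (ctr ρ a) <;> simp [h]
  rw [h1]
  obtain ⟨k, hk⟩ : ∃ k : ℤ × ℤ, z ∈ hsq ρ k := ⟨cellOf ρ z, rfl⟩
  rw [mem_hsq hρ] at hk
  obtain ⟨⟨k1, k2⟩, k3, k4⟩ := hk
  have h2 : (F.filter fun a => z ∈ Sq (4 * ρ) (ctr ρ a)) ⊆
      (Finset.Icc (k.1 - 4) (k.1 + 4)) ×ˢ (Finset.Icc (k.2 - 4) (k.2 + 4)) := by
    intro a ha
    obtain ⟨-, ha1, ha2⟩ := Finset.mem_filter.1 ha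
    simp only [ctr] at ha1 ha2
    rw [abs_le] at ha1 ha2
    rw [Finset.mem_product, Finset.mem_Icc, Finset.mem_Icc]
    have key : ∀ (x : ℝ) (i j : ℤ), i * ρ ≤ x → x < (i + 1) * ρ → -(4 * ρ) ≤ x - (j + 1 / 2) * ρ →
        x - (j + 1 / 2) * ρ ≤ 4 * ρ → i - 4 ≤ j ∧ j ≤ i + 4 := by
      intro x i j e1 e2 e3 e4
      constructor
      · have : ((i - 5 : ℤ) : ℝ) * ρ < j * ρ := by push_cast; nlinarith
        have := lt_of_mul_lt_mul_right this hρ.le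
        have := Int.cast_lt.1 this
        omega
      · have : (j : ℝ) * ρ < ((i + 5 : ℤ) : ℝ) * ρ := by push_cast; nlinarith
        have := lt_of_mul_lt_mul_right this hρ.le
        have := Int.cast_lt.1 this
        omega
    exact ⟨key z.re k.1 a.1 k1 k2 ha1.1 ha1.2, key z.im k.2 a.2 k3 k4 ha2.1 ha2.2⟩
  have h3 := Finset.card_le_card h2
  rw [Finset.card_product, Int.card_Icc, Int.card_Icc] at h3
  have h4 : (k.1 + 4 + 1 - (k.1 - 4)).toNat = 9 := by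
    rw [show k.1 + 4 + 1 - (k.1 - 4) = 9 by ring]; rfl
  have h5 : (k.2 + 4 + 1 - (k.2 - 4)).toNat = 9 := by
    rw [show k.2 + 4 + 1 - (k.2 - 4) = 9 by ring]; rfl
  rw [h4, h5] at h3
  exact_mod_cast h3

theorem sum_Sq_le {ρ : ℝ} (hρ : 0 < ρ) (F : Finset (ℤ × ℤ)) {f : ℂ → ℝ}
    (hf : Integrable f volume) (h0 : ∀ᵐ z, 0 ≤ f z) :
    ∑ a ∈ F, ∫ z in Sq (4 * ρ) (ctr ρ a), f z ≤ 81 * ∫ z, f z := by
  have h1 : ∀ a ∈ F, ∫ z in Sq (4 * ρ) (ctr ρ a), f z =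
      ∫ z, (Sq (4 * ρ) (ctr ρ a)).indicator f z := fun a _ =>
    (integral_indicator (Sq_measurable _ _)).symm
  rw [Finset.sum_congr rfl h1, ← integral_finsetSum F fun a _ => hf.indicator (Sq_measurable _ _),
    ← integral_const_mul]
  apply integral_mono_ae (integrable_finsetSum F fun a _ => hf.indicator (Sq_measurable _ _))
    (hf.const_mul 81)
  filter_upwards [h0] with z hz
  have h2 : ∑ a ∈ F, (Sq (4 * ρ) (ctr ρ a)).indicator f z =
      (∑ a ∈ F, (Sq (4 * ρ) (ctr ρ a)).indicator (fun _ => (1 : ℝ)) z) * f z := by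
    rw [Finset.sum_mul]
    apply Finset.sum_congr rfl
    intro a _
    by_cases h : z ∈ Sq (4 * ρ) (ctr ρ a) <;> simp [h]
  rw [h2]
  exact mul_le_mul_of_nonneg_right (multiplicity hρ F z) hz

end Pool.Agent.H41.Ev
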