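import Pool.Agent.H41.Ev.LatA
import Pool.Agent.H41.Ev.LatB
import Pool.Agent.H41.Ev.Lam
import Pool.Agent.H85.Ev.Moll
import Pool.Agent.H47.Ev.LatGlue
import Pool.Agent.H38.Ev.LatArea

/-!
# The lattice contradiction, assembly (MP_898b17_an, M8)
-/

open MeasureTheory Set Metric Filter Topology ContDiff
open scoped ENNReal NNReal RealInnerProductSpace

namespace Pool.Agent.H41.Ev

set_option maxHeartbeats 400000

variable {Ω : Set ℂ} {w : ℂ → ℝ} {W : ℂ → ℂ}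

/-- A Lipschitz function with compact support living where `w ≥ 1/2` is in `H¹₀(Ω)`. -/
theorem rayleigh_of_lipschitz (hRQ : RQ Ω 1) (hw : H10 Ω w W) {φ : ℂ → ℝ} {K : ℝ≥0}
    (hφ : LipschitzWith K φ) (hc : HasCompactSupport φ) (h0 : ∀ z, 0 ≤ φ z) (h1 : ∀ z, φ z ≤ 1)
    (hhalf : ∀ᵐ z, φ z ≠ 0 → 1 / 2 ≤ w z) : ∫ z, φ z ^ 2 ≤ ∫ z, ‖gradient φ z‖ ^ 2 := by
  classical
  have hv := (hw.const_mul 2).min_const (c := 1) zero_le_one
  have hm := hv.mul_lipschitz hφ (C := 1) (fun z => by rw [abs_of_nonneg (h0 z)]; exact h1 z)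
  have hL := H10.of_lipschitz isOpen_univ hφ hc (subset_univ _)
  have he : (fun z => φ z * min (2 * w z) 1) =ᵐ[volume] φ := by
    filter_upwards [hhalf] with z hz
    by_cases h2 : φ z = 0
    · simp [h2]
    · have := hz h2
      rw [min_eq_right (by linarith), mul_one]
  have hg := hm.grad_unique hL he
  have h3 := hRQ.all (hm.congr he hg)
  rwa [one_mul] at h3

theorem torsion_le_volume (hΩ : IsOpen Ω) (hfin : volume Ω < ⊤) (hRQ : RQ Ω 1)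
    (hw : IsTorsion Ω w W) : ∫ z, w z ≤ (volume Ω).toReal := by
  have h1 := hw.sq_le hΩ hfin
  have h2 := hRQ.all hw.1
  rw [one_mul, hw.energy hΩ hfin] at h2
  have hT := hw.torsion_nonneg hΩ hfin
  rcases hT.eq_or_lt with h3 | h3
  · rw [← h3]; exact ENNReal.toReal_nonneg
  · have h4 : (∫ z, w z) * (∫ z, w z) ≤ (volume Ω).toReal * ∫ z, w z := by
      calc (∫ z, w z) * (∫ z, w z) = (∫ z, w z) ^ 2 := by ring
        _ ≤ (volume Ω).toReal * ∫ z, w z ^ 2 := h1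
        _ ≤ (volume Ω).toReal * ∫ z, w z := mul_le_mul_of_nonneg_left h2 ENNReal.toReal_nonneg
    exact le_of_mul_le_mul_right h4 h3

/-- The high squares are finitely many. -/
theorem high_finite {ρ : ℝ} (hρ : 0 < ρ) (hi : Integrable w volume) (h0 : ∀ᵐ z, 0 ≤ w z) :
    {a : ℤ × ℤ | 7 / 10 * (64 * ρ ^ 2) ≤ ∫ z in Sq (4 * ρ) (ctr ρ a), w z}.Finite := by
  by_contra hinf
  have hinf' : {a : ℤ × ℤ | 7 / 10 * (64 * ρ ^ 2) ≤ ∫ z in Sq (4 * ρ) (ctr ρ a), w z}.Infinite :=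
    hinf
  obtain ⟨n, hn⟩ := exists_nat_gt (81 * (∫ z, w z) / (7 / 10 * (64 * ρ ^ 2)))
  obtain ⟨F, hF, hcard⟩ := hinf'.exists_subset_card_eq n
  have h1 := sum_Sq_le hρ F hi h0
  have h2 : (n : ℝ) * (7 / 10 * (64 * ρ ^ 2)) ≤ ∑ a ∈ F, ∫ z in Sq (4 * ρ) (ctr ρ a), w z := by
    rw [← hcard, ← nsmul_eq_mul]
    exact Finset.card_nsmul_le_sum F _ _ fun a ha => hF ha
  have hpos : 0 < 7 / 10 * (64 * ρ ^ 2) := by positivity
  rw [div_lt_iff₀ hpos] at hn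
  linarith

/-- Neighbours (with the square itself). -/
noncomputable def nbr (H : Finset (ℤ × ℤ)) : Finset (ℤ × ℤ) :=
  H.biUnion fun a => (Finset.Icc (a.1 - 1) (a.1 + 1)) ×ˢ (Finset.Icc (a.2 - 1) (a.2 + 1))

theorem mem_nbr {H : Finset (ℤ × ℤ)} {b : ℤ × ℤ} : b ∈ nbr H ↔
    ∃ a ∈ H, |a.1 - b.1| ≤ 1 ∧ |a.2 - b.2| ≤ 1 := by
  unfold nbr
  rw [Finset.mem_biUnion]
  constructor
  · rintro ⟨a, ha, h⟩
    rw [Finset.mem_product, Finset.mem_Icc, Finset.mem_Icc] at h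
    exact ⟨a, ha, abs_le.2 ⟨by linarith [h.1.1, h.1.2], by linarith [h.1.1, h.1.2]⟩,
      abs_le.2 ⟨by linarith [h.2.1, h.2.2], by linarith [h.2.1, h.2.2]⟩⟩
  · rintro ⟨a, ha, h1, h2⟩
    rw [abs_le] at h1 h2
    refine ⟨a, ha, ?_⟩
    rw [Finset.mem_product, Finset.mem_Icc, Finset.mem_Icc]
    exact ⟨⟨by linarith [h1.1, h1.2], by linarith [h1.1, h1.2]⟩,
      ⟨by linarith [h2.1, h2.2], by linarith [h2.1, h2.2]⟩⟩

theorem hsq_subset_two {ρ : ℝ} (hρ : 0 < ρ) (a : ℤ × ℤ) : hsq ρ a ⊆ Sq (2 * ρ) (ctr ρ a) := by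
  intro z hz
  obtain ⟨h1, h2⟩ := hsq_subset hρ a hz
  exact ⟨h1.trans (by linarith), h2.trans (by linarith)⟩

/-- Lower bound for `∫ φ²`. -/
theorem lower_bound {φ : ℂ → ℝ} (hi : Integrable (fun z => φ z ^ 2) volume) (hΩ : IsOpen Ω)
    (hfin : volume Ω < ⊤) {R : Set ℂ} (hR : MeasurableSet R) (B : Finset (ℤ × ℤ)) {ρ L : ℝ}
    (hL : 0 ≤ L) (h1 : ∀ z ∈ R, (∀ b ∈ B, L ≤ ‖z - ctr ρ b‖) → φ z = 1) :
    (volume Ω).toReal - (volume (Ω ∩ Rᶜ)).toReal - B.card * (Real.pi * L ^ 2) ≤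
      ∫ z, φ z ^ 2 := by
  have hball : ∀ b ∈ B, volume (ball (ctr ρ b) L) = ENNReal.ofReal (Real.pi * L ^ 2) := by
    intro b _
    rw [Complex.volume_ball, mul_comm, ENNReal.ofReal_mul Real.pi_pos.le, ENNReal.ofReal_pow hL]
    congr 1
    rw [← NNReal.coe_real_pi, ENNReal.ofReal_coe_nnreal]
  let S : Set ℂ := (Ω ∩ R) \ ⋃ b ∈ B, ball (ctr ρ b) L
  have hBm : MeasurableSet (⋃ b ∈ B, ball (ctr ρ b) L) :=
    (isOpen_biUnion fun b _ => isOpen_ball).measurableSet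
  have hSm : MeasurableSet S := (hΩ.measurableSet.inter hR).diff hBm
  have hSle : (volume S).toReal ≤ ∫ z, φ z ^ 2 := by
    have hSfin : volume S < ⊤ := (measure_mono (sdiff_subset.trans inter_subset_left)).trans_lt hfin
    calc (volume S).toReal = ∫ z in S, (1 : ℝ) := by simp [Measure.real]
      _ = ∫ z in S, φ z ^ 2 := by
          apply setIntegral_congr_fun hSm
          intro z hz
          have : φ z = 1 := by
            apply h1 z hz.1.2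
            intro b hb
            by_contra h2
            push Not at h2
            apply hz.2
            simp only [mem_iUnion, mem_ball, dist_eq_norm]
            exact ⟨b, hb, h2⟩
          simp [this]
      _ ≤ ∫ z, φ z ^ 2 := setIntegral_le_integral hi (Eventually.of_forall fun z => sq_nonneg _)
  have hcover : volume Ω ≤ volume S + volume (Ω ∩ Rᶜ) +
      B.card * ENNReal.ofReal (Real.pi * L ^ 2) := by
    have h3 : Ω ⊆ (S ∪ (Ω ∩ Rᶜ)) ∪ ⋃ b ∈ B, ball (ctr ρ b) L := by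
      intro z hz
      by_cases h4 : z ∈ ⋃ b ∈ B, ball (ctr ρ b) L
      · exact Or.inr h4
      · by_cases h5 : z ∈ R
        · exact Or.inl (Or.inl ⟨⟨hz, h5⟩, h4⟩)
        · exact Or.inl (Or.inr ⟨hz, h5⟩)
    refine (measure_mono h3).trans ((measure_union_le _ _).trans ?_)
    refine add_le_add (measure_union_le _ _) ?_
    refine (measure_biUnion_finset_le _ _).trans ?_
    rw [Finset.sum_congr rfl hball, Finset.sum_const, nsmul_eq_mul]
  have hfin1 : volume S ≠ ⊤ :=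
    ((measure_mono (sdiff_subset.trans inter_subset_left)).trans_lt hfin).ne
  have hfin2 : volume (Ω ∩ Rᶜ) ≠ ⊤ := ((measure_mono inter_subset_left).trans_lt hfin).ne
  have hfin3 : (B.card : ℝ≥0∞) * ENNReal.ofReal (Real.pi * L ^ 2) ≠ ⊤ :=
    ENNReal.mul_ne_top (ENNReal.natCast_ne_top _) ENNReal.ofReal_ne_top
  have h6 := ENNReal.toReal_mono (ENNReal.add_ne_top.2 ⟨ENNReal.add_ne_top.2 ⟨hfin1, hfin2⟩, hfin3⟩)
    hcover
  rw [ENNReal.toReal_add (ENNReal.add_ne_top.2 ⟨hfin1, hfin2⟩) hfin3,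
    ENNReal.toReal_add hfin1 hfin2, ENNReal.toReal_mul, ENNReal.toReal_natCast,
    ENNReal.toReal_ofReal (by positivity)] at h6
  linarith

/-- M8. -/
theorem lattice : ∃ e₀ : ℝ, 0 < e₀ ∧ ∀ e₁ : ℝ, 0 < e₁ → e₁ ≤ e₀ → ∀ ρ₀ : ℝ, 0 < ρ₀ →
    ∃ δ : ℝ, 0 < δ ∧ ∀ (Ω : Set ℂ) (w : ℂ → ℝ) (W : ℂ → ℂ), IsOpen Ω → 0 < volume Ω →
      volume Ω < ⊤ → RQ Ω 1 → IsTorsion Ω w W →
      (∀ ρ : ℝ, 0 < ρ → ρ ≤ ρ₀ → ∀ p : ℂ, ∫ z in Sq (4 * ρ) p, ‖W z‖ ^ 2 ≤ e₁ →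
        7 / 10 * (64 * ρ ^ 2) ≤ ∫ z in Sq (4 * ρ) p, w z →
        ∀ᵐ z ∂volume.restrict (Sq (2 * ρ) p), 1 / 2 ≤ w z) →
      ∫ z, w z < (1 - δ) * (volume Ω).toReal := by
  classical
  obtain ⟨ea, hea, hbad⟩ := bad_card
  obtain ⟨eb, heb, hadj⟩ := adjacent
  obtain ⟨C, hC, harea⟩ := area_le
  refine ⟨min ea eb, lt_min hea heb, fun e₁ he₁ he₁' ρ₀ hρ₀ => ?_⟩
  have he₁a : e₁ ≤ ea := he₁'.trans (min_le_left _ _)
  have he₁b : e₁ ≤ eb := he₁'.trans (min_le_right _ _)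
  obtain ⟨C₁, hC₁⟩ : ∃ C₁ : ℝ, C₁ = 81 / e₁ + 64 := ⟨_, rfl⟩
  have hC₁0 : 0 < C₁ := by rw [hC₁]; positivity
  have hpi := Real.pi_pos
  -- choice of N
  obtain ⟨N, hN⟩ := exists_nat_gt (8 * C₁ * (4 * Real.pi))
  have hN0 : 0 < (N : ℝ) := lt_trans (by positivity) hN
  have hN0' : 0 < N := by exact_mod_cast hN0
  have hNC : C₁ * (4 * Real.pi / N) ≤ 1 / 8 := by
    rw [← mul_div_assoc, div_le_iff₀ hN0]
    linarith
  -- choice of L
  obtain ⟨L, hL, hLC⟩ : ∃ L : ℝ, 0 < L ∧ C₁ * (Real.pi * L ^ 2) ≤ 1 / 10 := by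
    refine ⟨min 1 (1 / (10 * (C₁ * Real.pi))), lt_min one_pos (by positivity), ?_⟩
    have h1 : min 1 (1 / (10 * (C₁ * Real.pi))) ^ 2 ≤ 1 / (10 * (C₁ * Real.pi)) := by
      have h2 : 0 < min 1 (1 / (10 * (C₁ * Real.pi))) := lt_min one_pos (by positivity)
      calc min 1 (1 / (10 * (C₁ * Real.pi))) ^ 2
          = min 1 (1 / (10 * (C₁ * Real.pi))) * min 1 (1 / (10 * (C₁ * Real.pi))) := by ring
        _ ≤ 1 * (1 / (10 * (C₁ * Real.pi))) :=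
            mul_le_mul (min_le_left _ _) (min_le_right _ _) h2.le zero_le_one
        _ = _ := one_mul _
    calc C₁ * (Real.pi * min 1 (1 / (10 * (C₁ * Real.pi))) ^ 2)
        ≤ C₁ * (Real.pi * (1 / (10 * (C₁ * Real.pi)))) := by gcongr
      _ = 1 / 10 := by field_simp
  -- choice of ρ
  obtain ⟨ρ, hρ, hρ₀', hρL, hρC⟩ : ∃ ρ : ℝ, 0 < ρ ∧ ρ ≤ ρ₀ ∧ 5 * ρ * 4 ^ N ≤ L ∧
      C * (1 + 1 / e₁) * ρ ^ 2 ≤ 1 / 10 := by
    let c : ℝ := C * (1 + 1 / e₁)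
    have hc : 0 < c := by positivity
    refine ⟨min (min 1 ρ₀) (min (L / (5 * 4 ^ N)) (1 / (10 * c))),
      lt_min (lt_min one_pos hρ₀) (lt_min (by positivity) (by positivity)),
      (min_le_left _ _).trans (min_le_right _ _), ?_, ?_⟩
    · have h1 : min (min 1 ρ₀) (min (L / (5 * 4 ^ N)) (1 / (10 * c))) ≤ L / (5 * 4 ^ N) :=
        (min_le_right _ _).trans (min_le_left _ _)
      rw [le_div_iff₀ (by positivity)] at h1
      linarith
    · have h1 : min (min 1 ρ₀) (min (L / (5 * 4 ^ N)) (1 / (10 * c))) ≤ 1 :=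
        (min_le_left _ _).trans (min_le_left _ _)
      have h2 : min (min 1 ρ₀) (min (L / (5 * 4 ^ N)) (1 / (10 * c))) ≤ 1 / (10 * c) :=
        (min_le_right _ _).trans (min_le_right _ _)
      have h3 : 0 < min (min 1 ρ₀) (min (L / (5 * 4 ^ N)) (1 / (10 * c))) :=
        lt_min (lt_min one_pos hρ₀) (lt_min (by positivity) (by positivity))
      calc c * min (min 1 ρ₀) (min (L / (5 * 4 ^ N)) (1 / (10 * c))) ^ 2
          = c * (min (min 1 ρ₀) (min (L / (5 * 4 ^ N)) (1 / (10 * c))) *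
            min (min 1 ρ₀) (min (L / (5 * 4 ^ N)) (1 / (10 * c)))) := by ring
        _ ≤ c * (1 * (1 / (10 * c))) := by
            apply mul_le_mul_of_nonneg_left _ hc.le
            exact mul_le_mul h1 h2 h3.le zero_le_one
        _ = 1 / 10 := by field_simp
  refine ⟨min (ρ ^ 2) (1 / 230), lt_min (by positivity) (by norm_num), ?_⟩
  intro Ω w W hΩ hpos hfin hRQ hw hhigh
  by_contra hcon
  push Not at hcon
  have hA : 0 < (volume Ω).toReal := ENNReal.toReal_pos hpos.ne' hfin.ne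
  have hT0 := hw.torsion_nonneg hΩ hfin
  have hTA := torsion_le_volume hΩ hfin hRQ hw
  have hwn := hw.nonneg hΩ hfin
  have hwi := hw.1.integrable hΩ hfin
  obtain ⟨A, hAdef⟩ : ∃ A, A = (volume Ω).toReal := ⟨_, rfl⟩
  obtain ⟨T, hTdef⟩ : ∃ T, T = ∫ z, w z := ⟨_, rfl⟩
  have hδ1 : A - T ≤ ρ ^ 2 * A := by
    have h1 : min (ρ ^ 2) (1 / 230) * A ≤ ρ ^ 2 * A :=
      mul_le_mul_of_nonneg_right (min_le_left _ _) (by rw [hAdef]; exact hA.le)
    rw [hAdef, hTdef] at *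
    linarith
  have hδ2 : 23 * (A - T) ≤ A / 10 := by
    have h1 : min (ρ ^ 2) (1 / 230) * A ≤ 1 / 230 * A :=
      mul_le_mul_of_nonneg_right (min_le_right _ _) (by rw [hAdef]; exact hA.le)
    rw [hAdef, hTdef] at *
    linarith
  -- high squares
  have hHfin : {a : ℤ × ℤ | ∫ z in Sq (4 * ρ) (ctr ρ a), ‖W z‖ ^ 2 ≤ e₁ ∧
      7 / 10 * (64 * ρ ^ 2) ≤ ∫ z in Sq (4 * ρ) (ctr ρ a), w z}.Finite :=
    (high_finite hρ hwi hwn).subset fun a ha => ha.2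
  let H : Finset (ℤ × ℤ) := hHfin.toFinset
  have hH : ∀ a, a ∈ H ↔ (∫ z in Sq (4 * ρ) (ctr ρ a), ‖W z‖ ^ 2 ≤ e₁ ∧
      7 / 10 * (64 * ρ ^ 2) ≤ ∫ z in Sq (4 * ρ) (ctr ρ a), w z) := fun a => by
    simp [H]
  let B : Finset (ℤ × ℤ) := (nbr H).filter fun b => b ∉ H
  have hBB : ∀ a ∈ H, ∀ b, b ∉ H → |a.1 - b.1| ≤ 1 → |a.2 - b.2| ≤ 1 → b ∈ B := by
    intro a ha b hb h1 h2
    exact Finset.mem_filter.2 ⟨mem_nbr.2 ⟨a, ha, h1, h2⟩, hb⟩
  -- the number of bad squares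
  have hBcard : (B.card : ℝ) ≤ C₁ * A := by
    have h1 := hbad e₁ he₁ he₁a Ω w W hΩ hfin hRQ hw ρ hρ B (fun b hb => by
      obtain ⟨hb1, hb2⟩ := Finset.mem_filter.1 hb
      obtain ⟨a, ha, h1, h2⟩ := mem_nbr.1 hb1
      by_cases h3 : e₁ < ∫ z in Sq (4 * ρ) (ctr ρ b), ‖W z‖ ^ 2
      · exact Or.inl h3
      · push Not at h3
        refine Or.inr ⟨?_, ?_⟩
        · exact hadj e₁ he₁ he₁b w W (hw.1.mono (subset_univ _)) ρ hρ a b h1 h2
            ((hH a).1 ha).1 ((hH a).1 ha).2 h3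
        · by_contra h4
          push Not at h4
          exact hb2 ((hH b).2 ⟨h3, h4⟩))
    rw [← hAdef, ← hTdef] at h1
    refine h1.trans ?_
    rw [hC₁, add_mul]
    apply add_le_add
    · apply mul_le_mul_of_nonneg_left _ (by positivity)
      rw [hAdef, hTdef]; exact hTA
    · calc 64 / ρ ^ 2 * (A - T) ≤ 64 / ρ ^ 2 * (ρ ^ 2 * A) :=
            mul_le_mul_of_nonneg_left hδ1 (by positivity)
        _ = 64 * A := by field_simp
  -- the test function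
  obtain ⟨φ, K, hφL, hφc, hφ0, hφ1, hφH, hφ2, hφg⟩ :=
    glue_of_cutoff (fun N hN r hr b => log_cutoff hN hr b) hρ hN0' H B hBB
  have hray := rayleigh_of_lipschitz hRQ hw.1 hφL hφc hφ0 hφ1 (by
    have h1 : ∀ a ∈ H, ∀ᵐ z, z ∈ hsq ρ a → 1 / 2 ≤ w z := by
      intro a ha
      have h2 := hhigh ρ hρ hρ₀' (ctr ρ a) ((hH a).1 ha).1 ((hH a).1 ha).2
      have h3 := ae_restrict_of_ae_restrict_of_subset (hsq_subset_two hρ a) h2
      exact (ae_restrict_iff' (measurableSet_hsq hρ a)).1 h3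
    have h4 : ∀ᵐ z, ∀ a ∈ H, z ∈ hsq ρ a → 1 / 2 ≤ w z := by
      rw [Finset.eventually_all]
      exact h1
    filter_upwards [h4] with z hz hzn
    have h5 : cellOf ρ z ∈ H := by
      by_contra h6
      exact hzn (hφH z h6)
    exact hz _ h5 rfl)
  -- lower bound
  have hRm : MeasurableSet {z : ℂ | cellOf ρ z ∈ H} := by
    have e1 : {z : ℂ | cellOf ρ z ∈ H} = ⋃ a ∈ H, hsq ρ a := by
      ext z; simp [hsq]
    rw [e1]
    exact Finset.measurableSet_biUnion _ fun a _ => measurableSet_hsq hρ a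
  have hφi : Integrable (fun z => φ z ^ 2) volume :=
    (hφL.continuous.memLp_of_hasCompactSupport hφc).integrable_sq
  have hlow := lower_bound (φ := φ) (ρ := ρ) hφi hΩ hfin hRm B hL.le
    (fun z hz hzb => hφ2 z hz fun b hb => hρL.trans (hzb b hb))
  have harea' := harea e₁ he₁ Ω w W hΩ hfin hRQ hw ρ hρ (H : Set (ℤ × ℤ)) (fun a ha => by
    by_contra h1
    push Not at h1
    exact ha ((hH a).2 h1))
  have e2 : {z : ℂ | cellOf ρ z ∈ H}ᶜ = {z : ℂ | cellOf ρ z ∉ (H : Set (ℤ × ℤ))} := by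
    ext z; simp
  rw [e2] at hlow
  rw [← hAdef, ← hTdef] at harea'
  rw [← hAdef] at hlow
  have hA' : 0 < A := by rw [hAdef]; exact hA
  have hTA' : T ≤ A := by rw [hAdef, hTdef]; exact hTA
  have hT0' : 0 ≤ T := by rw [hTdef]; exact hT0
  have u1 : (B.card : ℝ) * (Real.pi * L ^ 2) ≤ A / 10 := by
    calc (B.card : ℝ) * (Real.pi * L ^ 2) ≤ (C₁ * A) * (Real.pi * L ^ 2) :=
          mul_le_mul_of_nonneg_right hBcard (by positivity)
      _ = (C₁ * (Real.pi * L ^ 2)) * A := by ring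
      _ ≤ 1 / 10 * A := mul_le_mul_of_nonneg_right hLC hA'.le
      _ = A / 10 := by ring
  have u2 : (B.card : ℝ) * (4 * Real.pi / N) ≤ A / 8 := by
    calc (B.card : ℝ) * (4 * Real.pi / N) ≤ (C₁ * A) * (4 * Real.pi / N) :=
          mul_le_mul_of_nonneg_right hBcard (by positivity)
      _ = (C₁ * (4 * Real.pi / N)) * A := by ring
      _ ≤ 1 / 8 * A := mul_le_mul_of_nonneg_right hNC hA'.le
      _ = A / 8 := by ring
  have u3 : C * (1 + 1 / e₁) * ρ ^ 2 * T ≤ A / 10 := by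
    calc C * (1 + 1 / e₁) * ρ ^ 2 * T ≤ 1 / 10 * T := mul_le_mul_of_nonneg_right hρC hT0'
      _ ≤ A / 10 := by linarith
  linarith

end Pool.Agent.H41.Ev
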