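import Pool.Agent.H41.Ev.Defs

/-!
# Calculus in `H¹₀`, part 1 (MP_898b17_an, M1)
-/

open MeasureTheory Set Metric Filter Topology ContDiff
open scoped ENNReal RealInnerProductSpace

namespace Pool.Agent.H41.Ev

variable {Ω Ω' U : Set ℂ} {u v w w' : ℂ → ℝ} {G H W W' : ℂ → ℂ} {φ ψ : ℂ → ℝ}

/-! ### Gradients -/

theorem gradient_eq (f : ℂ → ℝ) (z : ℂ) :
    gradient f z = (InnerProductSpace.toDual ℝ ℂ).symm (fderiv ℝ f z) := rfl

theorem norm_gradient (f : ℂ → ℝ) (z : ℂ) : ‖gradient f z‖ = ‖fderiv ℝ f z‖ := by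
  rw [gradient_eq, LinearIsometryEquiv.norm_map]

theorem inner_gradient (f : ℂ → ℝ) (z a : ℂ) : ⟪gradient f z, a⟫ = fderiv ℝ f z a := by
  rw [gradient_eq, InnerProductSpace.toDual_symm_apply]

theorem gradient_eq_of_fderiv {f : ℂ → ℝ} {z a : ℂ} (h : ∀ b, fderiv ℝ f z b = ⟪a, b⟫) :
    gradient f z = a := by
  apply ext_inner_right ℝ
  intro b
  rw [inner_gradient, h]

theorem gradient_add' {f g : ℂ → ℝ} {z : ℂ} (hf : DifferentiableAt ℝ f z)
    (hg : DifferentiableAt ℝ g z) :
    gradient (fun x => f x + g x) z = gradient f z + gradient g z := by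
  apply gradient_eq_of_fderiv
  intro b
  rw [fderiv_fun_add hf hg, inner_add_left, inner_gradient, inner_gradient]
  rfl

theorem gradient_sub' {f g : ℂ → ℝ} {z : ℂ} (hf : DifferentiableAt ℝ f z)
    (hg : DifferentiableAt ℝ g z) :
    gradient (fun x => f x - g x) z = gradient f z - gradient g z := by
  apply gradient_eq_of_fderiv
  intro b
  rw [fderiv_fun_sub hf hg, inner_sub_left, inner_gradient, inner_gradient]
  rfl

theorem gradient_const_mul' {f : ℂ → ℝ} {z : ℂ} (hf : DifferentiableAt ℝ f z) (c : ℝ) :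
    gradient (fun x => c * f x) z = c • gradient f z := by
  apply gradient_eq_of_fderiv
  intro b
  rw [fderiv_const_mul hf, inner_smul_left, inner_gradient]
  rfl

theorem gradient_mul' {f g : ℂ → ℝ} {z : ℂ} (hf : DifferentiableAt ℝ f z)
    (hg : DifferentiableAt ℝ g z) :
    gradient (fun x => f x * g x) z = f z • gradient g z + g z • gradient f z := by
  apply gradient_eq_of_fderiv
  intro b
  rw [fderiv_fun_mul hf hg, inner_add_left, inner_smul_left, inner_smul_left, inner_gradient,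
    inner_gradient]
  rfl

theorem gradient_comp' {f : ℂ → ℝ} {F : ℝ → ℝ} {z : ℂ} (hf : DifferentiableAt ℝ f z)
    (hF : DifferentiableAt ℝ F (f z)) :
    gradient (fun x => F (f x)) z = deriv F (f z) • gradient f z := by
  apply gradient_eq_of_fderiv
  intro b
  have h := (hF.hasDerivAt.comp_hasFDerivAt z hf.hasFDerivAt).fderiv
  have h' : fderiv ℝ (fun x => F (f x)) z = deriv F (f z) • fderiv ℝ f z := h
  rw [h', inner_smul_left, inner_gradient]
  rfl

theorem gradient_zero_of_notMem_tsupport {f : ℂ → ℝ} {z : ℂ} (h : z ∉ tsupport f) :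
    gradient f z = 0 := by
  have : fderiv ℝ f z = 0 := by
    have h1 : z ∉ tsupport (fderiv ℝ f) := fun hz => h (tsupport_fderiv_subset ℝ hz)
    exact image_eq_zero_of_notMem_tsupport h1
  rw [gradient_eq, this, map_zero]

/-! ### Test functions -/

theorem IsTest.contDiff (h : IsTest Ω φ) : ContDiff ℝ ∞ φ := h.1
theorem IsTest.hasCompactSupport (h : IsTest Ω φ) : HasCompactSupport φ := h.2.1
theorem IsTest.tsupport_subset (h : IsTest Ω φ) : tsupport φ ⊆ Ω := h.2.2
theorem IsTest.continuous (h : IsTest Ω φ) : Continuous φ := h.1.continuous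
theorem IsTest.differentiable (h : IsTest Ω φ) : Differentiable ℝ φ :=
  h.1.differentiable (by simp)

theorem IsTest.mono (h : IsTest Ω φ) (hΩ : Ω ⊆ Ω') : IsTest Ω' φ := ⟨h.1, h.2.1, h.2.2.trans hΩ⟩

theorem IsTest.continuous_gradient (h : IsTest Ω φ) : Continuous (gradient φ) :=
  (InnerProductSpace.toDual ℝ ℂ).symm.continuous.comp (h.1.continuous_fderiv (by simp))

theorem IsTest.gradient_hasCompactSupport (h : IsTest Ω φ) : HasCompactSupport (gradient φ) := by
  apply HasCompactSupport.of_support_subset_isCompact h.2.1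
  intro z hz
  by_contra hz'
  exact hz (gradient_zero_of_notMem_tsupport hz')

theorem IsTest.memLp (h : IsTest Ω φ) (p : ℝ≥0∞) : MemLp φ p volume :=
  h.continuous.memLp_of_hasCompactSupport h.2.1

theorem IsTest.memLp_gradient (h : IsTest Ω φ) (p : ℝ≥0∞) : MemLp (gradient φ) p volume :=
  h.continuous_gradient.memLp_of_hasCompactSupport h.gradient_hasCompactSupport

theorem IsTest.zero : IsTest Ω (fun _ => 0) :=
  ⟨contDiff_const, HasCompactSupport.zero, by
    have : tsupport (fun _ : ℂ => (0 : ℝ)) = ∅ := by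
      rw [tsupport_eq_empty_iff]; rfl
    rw [this]; exact empty_subset _⟩

theorem IsTest.add (h : IsTest Ω φ) (h' : IsTest Ω ψ) : IsTest Ω (fun z => φ z + ψ z) :=
  ⟨h.1.add h'.1, h.2.1.add h'.2.1, (tsupport_add φ ψ).trans (union_subset h.2.2 h'.2.2)⟩

theorem IsTest.const_mul (h : IsTest Ω φ) (c : ℝ) : IsTest Ω (fun z => c * φ z) :=
  ⟨contDiff_const.mul h.1, h.2.1.mul_left, (tsupport_mul_subset_right).trans h.2.2⟩

theorem IsTest.sub (h : IsTest Ω φ) (h' : IsTest Ω ψ) : IsTest Ω (fun z => φ z - ψ z) := by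
  have := h.add (h'.const_mul (-1))
  have e : (fun z => φ z + -1 * ψ z) = fun z => φ z - ψ z := by ext z; ring
  rwa [e] at this

theorem IsTest.mul (h : IsTest Ω φ) (h' : IsTest Ω' ψ) : IsTest (Ω ∩ Ω') (fun z => φ z * ψ z) :=
  ⟨h.1.mul h'.1, h.2.1.mul_right, subset_inter ((tsupport_mul_subset_left).trans h.2.2)
    ((tsupport_mul_subset_right).trans h'.2.2)⟩

theorem IsTest.comp (h : IsTest Ω φ) {F : ℝ → ℝ} (hF : ContDiff ℝ ∞ F) (hF0 : F 0 = 0) :
    IsTest Ω (fun z => F (φ z)) := by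
  have hs : Function.support (fun z => F (φ z)) ⊆ Function.support φ := by
    intro z hz hz'
    exact hz (by simp only [hz', hF0])
  exact ⟨hF.comp h.1, h.2.1.mono hs, (closure_mono hs).trans h.2.2⟩

theorem IsTest.h10 (h : IsTest Ω φ) : H10 Ω φ (gradient φ) :=
  ⟨h.memLp 2, h.memLp_gradient 2, fun _ => φ, fun _ => h, by simp, by simp⟩

/-! ### Basic closure properties of `H10` -/

theorem H10.mono (h : H10 Ω u G) (hΩ : Ω ⊆ Ω') : H10 Ω' u G := by
  obtain ⟨φ, h1, h2, h3⟩ := h.approx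
  exact ⟨h.1, h.2, φ, fun n => (h1 n).mono hΩ, h2, h3⟩

theorem H10.congr (h : H10 Ω u G) (hu : u =ᵐ[volume] v) (hG : G =ᵐ[volume] H) : H10 Ω v H := by
  obtain ⟨φ, h1, h2, h3⟩ := h.approx
  refine ⟨h.1.ae_eq hu, h.2.ae_eq hG, φ, h1, ?_, ?_⟩
  · refine h2.congr fun n => eLpNorm_congr_ae ?_
    filter_upwards [hu] with z hz
    rw [hz]
  · refine h3.congr fun n => eLpNorm_congr_ae ?_
    filter_upwards [hG] with z hz
    rw [hz]

theorem H10.zero : H10 Ω (fun _ => 0) (fun _ => 0) := by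
  have h := (IsTest.zero (Ω := Ω)).h10
  have e : gradient (fun _ : ℂ => (0 : ℝ)) = fun _ => 0 := by
    ext1 z
    rw [gradient_eq, fderiv_fun_const]
    simp
  rwa [e] at h

theorem H10.add (h : H10 Ω u G) (h' : H10 Ω v H) :
    H10 Ω (fun z => u z + v z) (fun z => G z + H z) := by
  obtain ⟨φ, h1, h2, h3⟩ := h.approx
  obtain ⟨ψ, k1, k2, k3⟩ := h'.approx
  refine ⟨h.1.add h'.1, h.2.add h'.2, fun n z => φ n z + ψ n z, fun n => (h1 n).add (k1 n), ?_, ?_⟩
  · have hs := h2.add k2
    rw [add_zero] at hs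
    refine tendsto_of_tendsto_of_tendsto_of_le_of_le tendsto_const_nhds hs (fun n => bot_le) ?_
    intro n
    have e : (fun z => φ n z + ψ n z - (u z + v z)) =
        (fun z => φ n z - u z) + fun z => ψ n z - v z := by
      ext z; simp only [Pi.add_apply]; ring
    simp only [e]
    exact eLpNorm_add_le (((h1 n).memLp 2).1.sub h.1.1) (((k1 n).memLp 2).1.sub h'.1.1) (by norm_num)
  · have hs := h3.add k3
    rw [add_zero] at hs
    refine tendsto_of_tendsto_of_tendsto_of_le_of_le tendsto_const_nhds hs (fun n => bot_le) ?_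
    intro n
    have e : (fun z => gradient (fun z => φ n z + ψ n z) z - (G z + H z)) =
        (fun z => gradient (φ n) z - G z) + fun z => gradient (ψ n) z - H z := by
      ext1 z
      simp only [Pi.add_apply]
      rw [gradient_add' ((h1 n).differentiable z) ((k1 n).differentiable z)]
      abel
    simp only [e]
    exact eLpNorm_add_le (((h1 n).memLp_gradient 2).1.sub h.2.1)
      (((k1 n).memLp_gradient 2).1.sub h'.2.1) (by norm_num)

theorem H10.const_mul (h : H10 Ω u G) (c : ℝ) :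
    H10 Ω (fun z => c * u z) (fun z => c • G z) := by
  obtain ⟨φ, h1, h2, h3⟩ := h.approx
  refine ⟨h.1.const_mul c, h.2.const_smul c, fun n z => c * φ n z, fun n => (h1 n).const_mul c,
    ?_, ?_⟩
  · have hs : Tendsto (fun n => ‖c‖ₑ * eLpNorm (fun z => φ n z - u z) 2 volume) atTop (𝓝 0) := by
      have := ENNReal.Tendsto.const_mul (a := ‖c‖ₑ) h2 (Or.inr (by simp))
      simpa using this
    refine hs.congr fun n => ?_
    rw [← eLpNorm_const_smul]
    congr 1
    ext z
    simp only [Pi.smul_apply, smul_eq_mul]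
    ring
  · have hs : Tendsto (fun n => ‖c‖ₑ * eLpNorm (fun z => gradient (φ n) z - G z) 2 volume) atTop
        (𝓝 0) := by
      have := ENNReal.Tendsto.const_mul (a := ‖c‖ₑ) h3 (Or.inr (by simp))
      simpa using this
    refine hs.congr fun n => ?_
    rw [← eLpNorm_const_smul]
    congr 1
    ext1 z
    simp only [Pi.smul_apply]
    rw [gradient_const_mul' ((h1 n).differentiable z), smul_sub]

theorem H10.sub (h : H10 Ω u G) (h' : H10 Ω v H) :
    H10 Ω (fun z => u z - v z) (fun z => G z - H z) := by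
  have := h.add (h'.const_mul (-1))
  have e1 : (fun z => u z + -1 * v z) = fun z => u z - v z := by ext z; ring
  have e2 : (fun z => G z + (-1 : ℝ) • H z) = fun z => G z - H z := by
    ext1 z
    rw [neg_one_smul]; abel
  rwa [e1, e2] at this

theorem H10.neg (h : H10 Ω u G) : H10 Ω (fun z => - u z) (fun z => - G z) := by
  have := h.const_mul (-1)
  simpa using this

/-- `H¹₀(Ω)` is closed. -/
theorem H10.of_tendsto {un : ℕ → ℂ → ℝ} {Gn : ℕ → ℂ → ℂ} (h : ∀ n, H10 Ω (un n) (Gn n))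
    (hu : MemLp u 2 volume) (hG : MemLp G 2 volume)
    (hlu : Tendsto (fun n => eLpNorm (fun z => un n z - u z) 2 volume) atTop (𝓝 0))
    (hlG : Tendsto (fun n => eLpNorm (fun z => Gn n z - G z) 2 volume) atTop (𝓝 0)) :
    H10 Ω u G := by
  have key : ∀ n : ℕ, ∃ φ : ℂ → ℝ, IsTest Ω φ ∧
      eLpNorm (fun z => φ z - un n z) 2 volume ≤ ((n : ℝ≥0∞) + 1)⁻¹ ∧
      eLpNorm (fun z => gradient φ z - Gn n z) 2 volume ≤ ((n : ℝ≥0∞) + 1)⁻¹ := by
    intro n
    obtain ⟨φ, h1, h2, h3⟩ := (h n).approx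
    have hpos : (0 : ℝ≥0∞) < ((n : ℝ≥0∞) + 1)⁻¹ := by
      rw [ENNReal.inv_pos]
      exact ENNReal.add_ne_top.2 ⟨ENNReal.natCast_ne_top n, by simp⟩
    obtain ⟨k, hk1, hk2⟩ := ((h2.eventually (gt_mem_nhds hpos)).and
      (h3.eventually (gt_mem_nhds hpos))).exists
    exact ⟨φ k, h1 k, hk1.le, hk2.le⟩
  choose φ h1 h2 h3 using key
  have hinv : Tendsto (fun n : ℕ => ((n : ℝ≥0∞) + 1)⁻¹) atTop (𝓝 0) := by
    have := ENNReal.tendsto_inv_nat_nhds_zero.comp (tendsto_add_atTop_nat 1)
    refine this.congr fun n => ?_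
    simp
  refine ⟨hu, hG, φ, h1, ?_, ?_⟩
  · have hs := hinv.add hlu
    rw [add_zero] at hs
    refine tendsto_of_tendsto_of_tendsto_of_le_of_le tendsto_const_nhds hs (fun n => bot_le) ?_
    intro n
    have e : (fun z => φ n z - u z) = (fun z => φ n z - un n z) + fun z => un n z - u z := by
      ext z; simp only [Pi.add_apply]; ring
    simp only [e]
    refine (eLpNorm_add_le (((h1 n).memLp 2).1.sub (h n).1.1) ((h n).1.1.sub hu.1)
      (by norm_num)).trans ?_
    exact add_le_add (h2 n) le_rfl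
  · have hs := hinv.add hlG
    rw [add_zero] at hs
    refine tendsto_of_tendsto_of_tendsto_of_le_of_le tendsto_const_nhds hs (fun n => bot_le) ?_
    intro n
    have e : (fun z => gradient (φ n) z - G z) =
        (fun z => gradient (φ n) z - Gn n z) + fun z => Gn n z - G z := by
      ext1 z; simp only [Pi.add_apply]; abel
    simp only [e]
    refine (eLpNorm_add_le (((h1 n).memLp_gradient 2).1.sub (h n).2.1) ((h n).2.1.sub hG.1)
      (by norm_num)).trans ?_
    exact add_le_add (h3 n) le_rfl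

end Pool.Agent.H41.Ev
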