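import Pool.Agent.H41.Ev.Lam

/-!
# End of the proof, in the plane (MP_898b17_an, M9)

The three main inputs (`limit_one`, `high_square`, `lattice`) are hypotheses here.
-/

open MeasureTheory Set Metric Filter Topology ContDiff
open scoped ENNReal RealInnerProductSpace

namespace Pool.Agent.H41.Ev

set_option maxHeartbeats 400000

variable {Ω Ω' U : Set ℂ} {u v w w' : ℂ → ℝ} {G H W W' : ℂ → ℂ} {φ ψ : ℂ → ℝ}

theorem exists_q_close {δ c : ℝ} (hδ : 0 < δ) (hc : 0 < c) : ∃ q₁ : ℝ, 1 < q₁ ∧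
    ∀ q, 1 < q → q < q₁ → (1 - δ) * c ^ (1 - q) < 1 - δ / 2 := by
  have h1 : Continuous fun q : ℝ => (1 - δ) * c ^ (1 - q) :=
    continuous_const.mul (continuous_const.rpow (continuous_const.sub continuous_id)
      fun _ => Or.inl hc.ne')
  have h2 : (fun q : ℝ => (1 - δ) * c ^ (1 - q)) 1 < 1 - δ / 2 := by
    simp only [sub_self, Real.rpow_zero, mul_one]
    linarith
  have h3 := (h1.tendsto 1).eventually (gt_mem_nhds h2)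
  obtain ⟨ε, hε, h4⟩ := Metric.eventually_nhds_iff.1 h3
  refine ⟨1 + ε, by linarith, fun q hq1 hq2 => h4 ?_⟩
  rw [Real.dist_eq, abs_of_pos (by linarith)]
  linarith

/-- Normalisation `λ = 1`. -/
theorem exists_normalised (h : Admissible Ω) {q : ℝ} : ∃ (Ω₁ : Set ℂ) (w : ℂ → ℝ) (W : ℂ → ℂ),
    IsOpen Ω₁ ∧ 0 < volume Ω₁ ∧ volume Ω₁ < ⊤ ∧ RQ Ω₁ 1 ∧ IsTorsion Ω₁ w W ∧
      (volume Ω₁).toReal = lam Ω * (volume Ω).toReal ∧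
      (∫ z, w z) ^ q / (volume Ω₁).toReal ^ (2 * q - 1) = Fq 2 q Ω := by
  have hl := h.lam_pos
  obtain ⟨w, W, hw⟩ := exists_torsion h.1 h.2.2
  have hT := hw.torsion_eq h.1 h.2.2
  have hs : 0 < Real.sqrt (lam Ω) := Real.sqrt_pos.2 hl
  have hss : Real.sqrt (lam Ω) ^ 2 = lam Ω := Real.sq_sqrt hl.le
  have hs' : (Real.sqrt (lam Ω))⁻¹ ≠ 0 := by positivity
  let e : ℂ ≃ₗᵢ[ℝ] ℂ := LinearIsometryEquiv.refl ℝ ℂ
  have hA := h.toReal_pos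
  have hvol : volume ((fun x : ℂ => (Real.sqrt (lam Ω))⁻¹ • e x) ⁻¹' Ω) =
      ENNReal.ofReal (lam Ω) * volume Ω := by
    rw [sim_volume e hs', Complex.finrank_real_complex]
    congr 2
    rw [inv_pow, hss, inv_inv, abs_of_pos hl]
  have hvol' : (volume ((fun x : ℂ => (Real.sqrt (lam Ω))⁻¹ • e x) ⁻¹' Ω)).toReal =
      lam Ω * (volume Ω).toReal := by
    rw [hvol, ENNReal.toReal_mul, ENNReal.toReal_ofReal hl.le]
  have hw1 := sim_isTorsion e hs' hw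
  have hint : ∫ x : ℂ, (((Real.sqrt (lam Ω))⁻¹) ^ 2)⁻¹ * w ((Real.sqrt (lam Ω))⁻¹ • e x) =
      lam Ω ^ 2 * ∫ z, w z := by
    rw [integral_const_mul, sim_integral e hs', Complex.finrank_real_complex, inv_pow, hss,
      inv_inv, abs_of_pos hl]
    ring
  refine ⟨_, _, _, ?_, ?_, ?_, ?_, hw1, hvol', ?_⟩
  · exact h.1.preimage (simHomeo e hs').continuous
  · rw [hvol]
    exact ENNReal.mul_pos (by simpa using hl) h.2.1.ne'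
  · rw [hvol]
    exact ENNReal.mul_lt_top ENNReal.ofReal_lt_top h.2.2
  · have h1 := sim_RQ e hs' (rq_lam Ω)
    rwa [inv_pow, hss, inv_mul_cancel₀ hl.ne'] at h1
  · rw [hint, hvol', Fq_two, hT, Real.mul_rpow (by positivity) (hw.torsion_nonneg h.1 h.2.2),
      Real.mul_rpow hl.le hA.le]
    have h1 : (lam Ω ^ 2) ^ q = lam Ω * lam Ω ^ (2 * q - 1) := by
      rw [← Real.rpow_natCast, ← Real.rpow_mul hl.le]
      rw [show ((2 : ℕ) : ℝ) * q = 1 + (2 * q - 1) by push_cast; ring, Real.rpow_add hl,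
        Real.rpow_one]
    rw [h1]
    have h2 : lam Ω ^ (2 * q - 1) ≠ 0 := (Real.rpow_pos_of_pos hl _).ne'
    have h3 : (volume Ω).toReal ^ (2 * q - 1) ≠ 0 := (Real.rpow_pos_of_pos hA _).ne'
    field_simp

theorem no_max_plane
    (hlim : ∀ δ : ℝ, 0 < δ → ∃ q₀ : ℝ, 1 < q₀ ∧ ∀ q, 1 < q → q < q₀ → ∀ S : ℝ,
      NoBetter (E := ℂ) q S → 1 - δ ≤ S)
    (hhigh : ∃ e₁ : ℝ, 0 < e₁ ∧ ∃ ρ₀ : ℝ, 0 < ρ₀ ∧ ∀ q : ℝ, 1 ≤ q → q ≤ 2 →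
      ∀ (Ω : Set ℂ) (w : ℂ → ℝ) (W : ℂ → ℂ), IsOpen Ω → 0 < volume Ω → volume Ω < ⊤ → RQ Ω 1 →
        IsTorsion Ω w W →
        NoBetter (E := ℂ) q ((∫ z, w z) ^ q / (volume Ω).toReal ^ (2 * q - 1)) →
        ∀ ρ : ℝ, 0 < ρ → ρ ≤ ρ₀ → ∀ p : ℂ, ∫ z in Sq (4 * ρ) p, ‖W z‖ ^ 2 ≤ e₁ →
          7 / 10 * (64 * ρ ^ 2) ≤ ∫ z in Sq (4 * ρ) p, w z →
          ∀ᵐ z ∂volume.restrict (Sq (2 * ρ) p), 1 / 2 ≤ w z)
    (hlat : ∃ e₀ : ℝ, 0 < e₀ ∧ ∀ e₁ : ℝ, 0 < e₁ → e₁ ≤ e₀ → ∀ ρ₀ : ℝ, 0 < ρ₀ →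
      ∃ δ : ℝ, 0 < δ ∧ ∀ (Ω : Set ℂ) (w : ℂ → ℝ) (W : ℂ → ℂ), IsOpen Ω → 0 < volume Ω →
        volume Ω < ⊤ → RQ Ω 1 → IsTorsion Ω w W →
        (∀ ρ : ℝ, 0 < ρ → ρ ≤ ρ₀ → ∀ p : ℂ, ∫ z in Sq (4 * ρ) p, ‖W z‖ ^ 2 ≤ e₁ →
          7 / 10 * (64 * ρ ^ 2) ≤ ∫ z in Sq (4 * ρ) p, w z →
          ∀ᵐ z ∂volume.restrict (Sq (2 * ρ) p), 1 / 2 ≤ w z) →
        ∫ z, w z < (1 - δ) * (volume Ω).toReal) :
    ∃ q₀ : ℝ, 1 < q₀ ∧ ∀ q, 1 < q → q < q₀ → ∀ Ω : Set ℂ, Admissible Ω →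
      ∃ Ω' : Set ℂ, Admissible Ω' ∧ Fq 2 q Ω < Fq 2 q Ω' := by
  obtain ⟨e₁', he₁', ρ₀, hρ₀, hh⟩ := hhigh
  obtain ⟨e₀, he₀, hlat⟩ := hlat
  obtain ⟨δ₀, hδ₀, hl⟩ := hlat (min e₁' e₀) (lt_min he₁' he₀) (min_le_right _ _) ρ₀ hρ₀
  obtain ⟨δ, hδdef⟩ : ∃ δ, δ = min δ₀ (1 / 2) := ⟨_, rfl⟩
  have hδ : 0 < δ := by rw [hδdef]; exact lt_min hδ₀ (by norm_num)
  have hδ2 : δ ≤ 1 / 2 := by rw [hδdef]; exact min_le_right _ _
  have hδδ : δ ≤ δ₀ := by rw [hδdef]; exact min_le_left _ _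
  obtain ⟨C, hC1, hC⟩ := exists_lam_lower
  obtain ⟨q₁, hq₁, hq₁'⟩ := exists_q_close (δ := δ) (c := 1 / C) hδ (by positivity)
  obtain ⟨q₂, hq₂, hq₂'⟩ := hlim (δ / 2) (by linarith)
  refine ⟨min (min q₁ q₂) 2, lt_min (lt_min hq₁ hq₂) (by norm_num), fun q hq hq' Ω hΩ => ?_⟩
  have hqq1 : q < q₁ := hq'.trans_le ((min_le_left _ _).trans (min_le_left _ _))
  have hqq2 : q < q₂ := hq'.trans_le ((min_le_left _ _).trans (min_le_right _ _))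
  have hqq3 : q ≤ 2 := hq'.le.trans (min_le_right _ _)
  by_contra hcon
  push Not at hcon
  have hNB : NoBetter (E := ℂ) q (Fq 2 q Ω) :=
    noBetter_of_max (by linarith) (fun Ω' h' => hcon Ω' h')
  obtain ⟨Ω₁, w, W, o1, o2, o3, o4, o5, o6, o7⟩ := exists_normalised hΩ (q := q)
  have hT := hl Ω₁ w W o1 o2 o3 o4 o5 (fun ρ h1 h2 p h3 h4 =>
    hh q hq.le hqq3 Ω₁ w W o1 o2 o3 o4 o5 (by rw [o7]; exact hNB) ρ h1 h2 p
      (h3.trans (min_le_left _ _)) h4)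
  have hS := hq₂' q hq hqq2 _ hNB
  have hA1 : 1 / C ≤ (volume Ω₁).toReal := by rw [o6]; exact hC Ω hΩ
  have hA0 : 0 < (volume Ω₁).toReal := lt_of_lt_of_le (by positivity) hA1
  have hT0 : 0 ≤ ∫ z, w z := o5.torsion_nonneg o1 o3
  have hT' : ∫ z, w z ≤ (1 - δ) * (volume Ω₁).toReal := by
    refine hT.le.trans ?_
    exact mul_le_mul_of_nonneg_right (by linarith) hA0.le
  have h1 : (∫ z, w z) ^ q ≤ (1 - δ) * (volume Ω₁).toReal ^ q := by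
    calc (∫ z, w z) ^ q ≤ ((1 - δ) * (volume Ω₁).toReal) ^ q :=
          Real.rpow_le_rpow hT0 hT' (by linarith)
      _ = (1 - δ) ^ q * (volume Ω₁).toReal ^ q := Real.mul_rpow (by linarith) hA0.le
      _ ≤ (1 - δ) * (volume Ω₁).toReal ^ q := by
          apply mul_le_mul_of_nonneg_right _ (Real.rpow_nonneg hA0.le _)
          calc (1 - δ) ^ q ≤ (1 - δ) ^ (1 : ℝ) :=
                Real.rpow_le_rpow_of_exponent_ge (by linarith) (by linarith) hq.le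
            _ = 1 - δ := Real.rpow_one _
  have h2 : Fq 2 q Ω ≤ (1 - δ) * (1 / C) ^ (1 - q) := by
    rw [← o7, div_le_iff₀ (Real.rpow_pos_of_pos hA0 _)]
    refine h1.trans ?_
    have h3 : (volume Ω₁).toReal ^ q =
        (volume Ω₁).toReal ^ (1 - q) * (volume Ω₁).toReal ^ (2 * q - 1) := by
      rw [← Real.rpow_add hA0]
      congr 1
      ring
    rw [h3, ← mul_assoc]
    apply mul_le_mul_of_nonneg_right _ (Real.rpow_nonneg hA0.le _)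
    apply mul_le_mul_of_nonneg_left _ (by linarith)
    exact Real.rpow_le_rpow_of_nonpos (by positivity) hA1 (by linarith)
  have h4 := hq₁' q hq hqq1
  linarith

end Pool.Agent.H41.Ev
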