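import Pool.Agent.H41.Ev.Transfer
import Pool.Agent.H38.Ev.High
import Pool.Agent.H63.Ev.LimitOne

/-!
# Glue (MP_898b17_an, M9)
-/

open MeasureTheory Set Metric Filter Topology ContDiff
open scoped ENNReal RealInnerProductSpace

namespace Pool.Agent.H41.Ev

theorem limit_one {δ : ℝ} (hδ : 0 < δ) : ∃ q₀ : ℝ, 1 < q₀ ∧ ∀ q, 1 < q → q < q₀ → ∀ S : ℝ,
    NoBetter (E := ℂ) q S → 1 - δ ≤ S :=
  Pool.Agent.H63.Ev.limit_one_of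
    (fun _ hU hfin _ hh κ h0 hκ _ hΛ _ hφ _ hη => perforation hU hfin hh κ h0 hκ hΛ hφ hη) hδ

/-- Everything but the lattice argument. -/
theorem no_max_of_lattice
    (hlat : ∃ e₀ : ℝ, 0 < e₀ ∧ ∀ e₁ : ℝ, 0 < e₁ → e₁ ≤ e₀ → ∀ ρ₀ : ℝ, 0 < ρ₀ →
      ∃ δ : ℝ, 0 < δ ∧ ∀ (Ω : Set ℂ) (w : ℂ → ℝ) (W : ℂ → ℂ), IsOpen Ω → 0 < volume Ω →
        volume Ω < ⊤ → RQ Ω 1 → IsTorsion Ω w W →
        (∀ ρ : ℝ, 0 < ρ → ρ ≤ ρ₀ → ∀ p : ℂ, ∫ z in Sq (4 * ρ) p, ‖W z‖ ^ 2 ≤ e₁ →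
          7 / 10 * (64 * ρ ^ 2) ≤ ∫ z in Sq (4 * ρ) p, w z →
          ∀ᵐ z ∂volume.restrict (Sq (2 * ρ) p), 1 / 2 ≤ w z) →
        ∫ z, w z < (1 - δ) * (volume Ω).toReal) :
    ∃ q₀ : ℝ, 1 < q₀ ∧ ∀ q : ℝ, 1 < q → q < q₀ →
      BddAbove {t | ∃ Ω : Set (EuclideanSpace ℝ (Fin 2)), Admissible Ω ∧ t = Fq 2 q Ω} ∧
      ∀ Ω : Set (EuclideanSpace ℝ (Fin 2)), Admissible Ω →
        Fq 2 q Ω <
          sSup {t | ∃ Ω' : Set (EuclideanSpace ℝ (Fin 2)), Admissible Ω' ∧ t = Fq 2 q Ω'} :=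
  transfer (no_max_plane (fun _ hδ => limit_one hδ) high_square hlat)

end Pool.Agent.H41.Ev
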