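import Pool.Agent.H41.Ev.Basic

/-!
# Logarithmic cut-off (MP_898b17_an, M8 (A))
-/

open MeasureTheory Set Metric Filter Topology ContDiff
open scoped ENNReal NNReal RealInnerProductSpace

namespace Pool.Agent.H41.Ev

set_option maxHeartbeats 400000

/-- One dyadic layer. -/
noncomputable def layer (s : ℝ) (b z : ℂ) : ℝ := max 0 (min 1 (‖z - b‖ / s - 1))

theorem layer_nonneg (s : ℝ) (b z : ℂ) : 0 ≤ layer s b z := le_max_left _ _

theorem layer_le_one (s : ℝ) (b z : ℂ) : layer s b z ≤ 1 :=
  max_le zero_le_one (min_le_left _ _)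

theorem layer_eq_zero {s : ℝ} (hs : 0 < s) {b z : ℂ} (h : ‖z - b‖ ≤ s) : layer s b z = 0 := by
  unfold layer
  have h1 : ‖z - b‖ / s ≤ 1 := (div_le_one hs).2 h
  exact max_eq_left ((min_le_right _ _).trans (by linarith))

theorem layer_eq_one {s : ℝ} (hs : 0 < s) {b z : ℂ} (h : 2 * s ≤ ‖z - b‖) : layer s b z = 1 := by
  unfold layer
  have h1 : 2 ≤ ‖z - b‖ / s := (le_div_iff₀ hs).2 h
  rw [min_eq_left (by linarith), max_eq_right zero_le_one]

theorem layer_lip {s : ℝ} (hs : 0 < s) (b x y : ℂ) :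
    |layer s b x - layer s b y| ≤ 1 / s * ‖x - y‖ := by
  have h1 : |layer s b x - layer s b y| ≤ |(‖x - b‖ / s - 1) - (‖y - b‖ / s - 1)| := by
    unfold layer
    have e1 := (abs_max_sub_max_le_max (0 : ℝ) (min 1 (‖x - b‖ / s - 1)) 0
      (min 1 (‖y - b‖ / s - 1))).trans (max_le (by simp) le_rfl)
    have e2 := (abs_min_sub_min_le_max (1 : ℝ) (‖x - b‖ / s - 1) 1
      (‖y - b‖ / s - 1)).trans (max_le (by simp) le_rfl)
    exact e1.trans e2
  refine h1.trans ?_
  have h2 : (‖x - b‖ / s - 1) - (‖y - b‖ / s - 1) = (‖x - b‖ - ‖y - b‖) / s := by ring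
  rw [h2, abs_div, abs_of_pos hs, div_eq_inv_mul, one_div]
  apply mul_le_mul_of_nonneg_left _ (by positivity)
  have := abs_norm_sub_norm_le (x - b) (y - b)
  simpa using this

/-- The local Lipschitz constant of a layer. -/
noncomputable def lc (s : ℝ) (b z : ℂ) : ℝ := if s ≤ ‖z - b‖ ∧ ‖z - b‖ ≤ 2 * s then 1 / s else 0

theorem lc_nonneg {s : ℝ} (hs : 0 < s) (b z : ℂ) : 0 ≤ lc s b z := by
  unfold lc
  split_ifs <;> positivity

theorem layer_local {s : ℝ} (hs : 0 < s) (b z : ℂ) :
    ∀ᶠ x in 𝓝 z, |layer s b x - layer s b z| ≤ lc s b z * ‖x - z‖ := by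
  by_cases h : s ≤ ‖z - b‖ ∧ ‖z - b‖ ≤ 2 * s
  · refine Eventually.of_forall fun x => ?_
    unfold lc
    rw [if_pos h]
    exact layer_lip hs b x z
  · unfold lc
    rw [if_neg h]
    have hc : Continuous fun x : ℂ => ‖x - b‖ := by fun_prop
    rw [not_and_or, not_le, not_le] at h
    rcases h with h | h
    · filter_upwards [(hc.tendsto z).eventually (gt_mem_nhds h)] with x hx
      rw [layer_eq_zero hs hx.le, layer_eq_zero hs h.le]
      simp
    · filter_upwards [(hc.tendsto z).eventually (lt_mem_nhds h)] with x hx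
      rw [layer_eq_one hs hx.le, layer_eq_one hs h.le]
      simp

theorem log_cutoff {N : ℕ} (hN : 0 < N) {r : ℝ} (hr : 0 < r) (b : ℂ) :
    ∃ (ζ g : ℂ → ℝ) (K : ℝ≥0), LipschitzWith K ζ ∧ (∀ z, 0 ≤ ζ z) ∧ (∀ z, ζ z ≤ 1) ∧
      (∀ z, ‖z - b‖ ≤ r → ζ z = 0) ∧ (∀ z, r * 4 ^ N ≤ ‖z - b‖ → ζ z = 1) ∧
      Integrable g volume ∧ (∀ z, 0 ≤ g z) ∧ (∀ z, ‖gradient ζ z‖ ^ 2 ≤ g z) ∧
      ∫ z, g z ≤ 4 * Real.pi / N := by
  have hN' : 0 < (N : ℝ) := by exact_mod_cast hN
  have hs : ∀ k : ℕ, 0 < r * 4 ^ k := fun k => by positivity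
  let ζ : ℂ → ℝ := fun z => (1 / N) * ∑ k ∈ Finset.range N, layer (r * 4 ^ k) b z
  let g : ℂ → ℝ := fun z => ∑ k ∈ Finset.range N, (1 / N * (1 / (r * 4 ^ k))) ^ 2 *
    (closedBall b (2 * (r * 4 ^ k))).indicator (fun _ => (1 : ℝ)) z
  have hdis : ∀ (k l : ℕ) (z : ℂ), k < l → lc (r * 4 ^ k) b z * lc (r * 4 ^ l) b z = 0 := by
    intro k l z hkl
    unfold lc
    by_cases h1 : r * 4 ^ k ≤ ‖z - b‖ ∧ ‖z - b‖ ≤ 2 * (r * 4 ^ k)
    · by_cases h2 : r * 4 ^ l ≤ ‖z - b‖ ∧ ‖z - b‖ ≤ 2 * (r * 4 ^ l)
      · exfalso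
        have h3 : r * 4 ^ (k + 1) ≤ r * 4 ^ l := by
          apply mul_le_mul_of_nonneg_left _ hr.le
          exact pow_le_pow_right₀ (by norm_num) hkl
        have h4 : r * 4 ^ (k + 1) = 4 * (r * 4 ^ k) := by ring
        have := hs k
        linarith [h1.2, h2.1]
      · rw [if_neg h2, mul_zero]
    · rw [if_neg h1, zero_mul]
  have hdis' : ∀ (k l : ℕ) (z : ℂ), k ≠ l → lc (r * 4 ^ k) b z * lc (r * 4 ^ l) b z = 0 := by
    intro k l z hkl
    rcases lt_or_gt_of_ne hkl with h | h
    · exact hdis k l z h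
    · rw [mul_comm]; exact hdis l k z h
  have hgrad : ∀ z, ‖gradient ζ z‖ ≤ (1 / N) * ∑ k ∈ Finset.range N, lc (r * 4 ^ k) b z := by
    intro z
    rw [norm_gradient]
    apply norm_fderiv_le_of_lip'
    · have : 0 ≤ ∑ k ∈ Finset.range N, lc (r * 4 ^ k) b z :=
        Finset.sum_nonneg fun k _ => lc_nonneg (hs k) b z
      positivity
    · have h1 : ∀ᶠ x in 𝓝 z, ∀ k ∈ Finset.range N,
          |layer (r * 4 ^ k) b x - layer (r * 4 ^ k) b z| ≤ lc (r * 4 ^ k) b z * ‖x - z‖ := by
        rw [Finset.eventually_all]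
        exact fun k _ => layer_local (hs k) b z
      filter_upwards [h1] with x hx
      have e : ζ x - ζ z = (1 / N) * ∑ k ∈ Finset.range N,
          (layer (r * 4 ^ k) b x - layer (r * 4 ^ k) b z) := by
        simp only [ζ]
        rw [← mul_sub, ← Finset.sum_sub_distrib]
      rw [e, norm_mul, Real.norm_of_nonneg (by positivity : (0 : ℝ) ≤ 1 / N), mul_assoc]
      apply mul_le_mul_of_nonneg_left _ (by positivity)
      rw [Finset.sum_mul]
      exact (Finset.abs_sum_le_sum_abs _ _).trans (Finset.sum_le_sum hx)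
  refine ⟨ζ, g, Real.toNNReal ((1 / N) * ∑ k ∈ Finset.range N, 1 / (r * 4 ^ k)), ?_, ?_, ?_, ?_,
    ?_, ?_, ?_, ?_, ?_⟩
  · apply LipschitzWith.of_dist_le_mul
    intro x y
    rw [Real.coe_toNNReal _ (by positivity), Real.dist_eq, dist_eq_norm]
    have e : ζ x - ζ y = (1 / N) * ∑ k ∈ Finset.range N,
        (layer (r * 4 ^ k) b x - layer (r * 4 ^ k) b y) := by
      simp only [ζ]
      rw [← mul_sub, ← Finset.sum_sub_distrib]
    rw [e, abs_mul, abs_of_nonneg (by positivity : (0 : ℝ) ≤ 1 / N), mul_assoc]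
    apply mul_le_mul_of_nonneg_left _ (by positivity)
    rw [Finset.sum_mul]
    exact (Finset.abs_sum_le_sum_abs _ _).trans
      (Finset.sum_le_sum fun k _ => layer_lip (hs k) b x y)
  · intro z
    have : 0 ≤ ∑ k ∈ Finset.range N, layer (r * 4 ^ k) b z :=
      Finset.sum_nonneg fun k _ => layer_nonneg _ b z
    exact mul_nonneg (by positivity) this
  · intro z
    have : ∑ k ∈ Finset.range N, layer (r * 4 ^ k) b z ≤ N := by
      calc ∑ k ∈ Finset.range N, layer (r * 4 ^ k) b z ≤ ∑ k ∈ Finset.range N, (1 : ℝ) :=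
            Finset.sum_le_sum fun k _ => layer_le_one _ b z
        _ = N := by simp
    simp only [ζ]
    rw [one_div, inv_mul_le_iff₀ hN', mul_one]
    exact this
  · intro z hz
    simp only [ζ]
    rw [Finset.sum_eq_zero, mul_zero]
    intro k _
    apply layer_eq_zero (hs k)
    refine hz.trans ?_
    exact le_mul_of_one_le_right hr.le (one_le_pow₀ (by norm_num))
  · intro z hz
    simp only [ζ]
    have : ∑ k ∈ Finset.range N, layer (r * 4 ^ k) b z = N := by
      rw [Finset.sum_congr rfl fun k hk => layer_eq_one (hs k) (b := b) (z := z) ?_]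
      · simp
      · have h1 : k + 1 ≤ N := Finset.mem_range.1 hk
        have h3 : r * 4 ^ (k + 1) ≤ r * 4 ^ N := by
          apply mul_le_mul_of_nonneg_left _ hr.le
          exact pow_le_pow_right₀ (by norm_num) h1
        have h4 : r * 4 ^ (k + 1) = 4 * (r * 4 ^ k) := by ring
        have := hs k
        linarith
    rw [this]
    field_simp
  · apply integrable_finsetSum
    intro k _
    apply Integrable.const_mul
    exact (integrable_indicator_iff measurableSet_closedBall).2
      (integrableOn_const (measure_closedBall_lt_top).ne)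
  · intro z
    apply Finset.sum_nonneg
    intro k _
    apply mul_nonneg (sq_nonneg _)
    exact indicator_nonneg (fun _ _ => zero_le_one) _
  · intro z
    have h0 : 0 ≤ ∑ k ∈ Finset.range N, lc (r * 4 ^ k) b z :=
      Finset.sum_nonneg fun k _ => lc_nonneg (hs k) b z
    calc ‖gradient ζ z‖ ^ 2 ≤ ((1 / N) * ∑ k ∈ Finset.range N, lc (r * 4 ^ k) b z) ^ 2 :=
          pow_le_pow_left₀ (norm_nonneg _) (hgrad z) 2
      _ = (1 / N) ^ 2 * ((∑ k ∈ Finset.range N, lc (r * 4 ^ k) b z) *
          ∑ l ∈ Finset.range N, lc (r * 4 ^ l) b z) := by ring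
      _ = (1 / N) ^ 2 * ∑ k ∈ Finset.range N, lc (r * 4 ^ k) b z ^ 2 := by
          congr 1
          rw [Finset.sum_mul_sum]
          apply Finset.sum_congr rfl
          intro k hk
          rw [Finset.sum_eq_single k (fun l _ hl => hdis' k l z hl.symm)
            (fun h => absurd hk h), sq]
      _ ≤ g z := by
          simp only [g]
          rw [Finset.mul_sum]
          apply Finset.sum_le_sum
          intro k _
          rw [mul_pow, mul_assoc]
          apply mul_le_mul_of_nonneg_left _ (by positivity)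
          unfold lc
          split_ifs with h
          · rw [indicator_of_mem, mul_one]
            rw [mem_closedBall, dist_eq_norm]
            exact h.2
          · have : 0 ≤ (closedBall b (2 * (r * 4 ^ k))).indicator (fun _ => (1 : ℝ)) z :=
              indicator_nonneg (fun _ _ => zero_le_one) _
            have h0 : (0 : ℝ) ^ 2 = 0 := by norm_num
            rw [h0]
            exact mul_nonneg (by positivity) this
  · have h1 : ∫ z, g z = ∑ k ∈ Finset.range N, 4 * Real.pi / N ^ 2 := by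
      simp only [g]
      rw [integral_finsetSum]
      · apply Finset.sum_congr rfl
        intro k _
        rw [integral_const_mul, integral_indicator_const _ measurableSet_closedBall]
        simp only [Measure.real, Complex.volume_closedBall, ENNReal.toReal_mul, smul_eq_mul,
          mul_one, ENNReal.toReal_pow, ENNReal.coe_toReal, NNReal.coe_real_pi]
        rw [ENNReal.toReal_ofReal (by have := hs k; positivity)]
        have h4 : (4 : ℝ) ^ k ≠ 0 := by positivity
        field_simp
        ring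
      · intro k _
        apply Integrable.const_mul
        exact (integrable_indicator_iff measurableSet_closedBall).2
          (integrableOn_const (measure_closedBall_lt_top).ne)
    rw [h1, Finset.sum_const, Finset.card_range, nsmul_eq_mul]
    apply le_of_eq
    field_simp

end Pool.Agent.H41.Ev
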