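import Pool.Agent.H41.Ev.Defs

/-! # Grid squares (MP_898b17_an, M8) -/

open MeasureTheory Set

namespace Pool.Agent.H41.Ev

/-- Centre of the grid square `a`. -/
noncomputable def ctr (ρ : ℝ) (a : ℤ × ℤ) : ℂ := ⟨(a.1 + 1 / 2) * ρ, (a.2 + 1 / 2) * ρ⟩

/-- Half-open grid square. -/
def hsq (ρ : ℝ) (a : ℤ × ℤ) : Set ℂ := {z | cellOf ρ z = a}

end Pool.Agent.H41.Ev
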