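import Pool.Agent.H41.Ev.End

/-!
# Transfer from the plane `ℂ` to `EuclideanSpace ℝ (Fin 2)` (MP_898b17_an, M9)
-/

open MeasureTheory Set Metric Filter Topology ContDiff
open scoped ENNReal RealInnerProductSpace

namespace Pool.Agent.H41.Ev

set_option maxHeartbeats 400000

/-- The isometry between the plane and `ℝ²`. -/
noncomputable def pl : ℂ ≃ₗᵢ[ℝ] EuclideanSpace ℝ (Fin 2) := Complex.orthonormalBasisOneI.repr

theorem pl_admissible {Ω : Set (EuclideanSpace ℝ (Fin 2))} (h : Admissible Ω) :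
    Admissible ((fun z : ℂ => pl z) ⁻¹' Ω) := by
  refine ⟨h.1.preimage pl.continuous, ?_, ?_⟩
  · rw [iso_volume pl]; exact h.2.1
  · rw [iso_volume pl]; exact h.2.2

theorem pl_symm_admissible {Ω : Set ℂ} (h : Admissible Ω) :
    Admissible ((fun z : EuclideanSpace ℝ (Fin 2) => pl.symm z) ⁻¹' Ω) := by
  refine ⟨h.1.preimage pl.symm.continuous, ?_, ?_⟩
  · rw [iso_volume pl.symm]; exact h.2.1
  · rw [iso_volume pl.symm]; exact h.2.2

theorem pl_Fq {Ω : Set (EuclideanSpace ℝ (Fin 2))} (h : Admissible Ω) (q : ℝ) :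
    Fq 2 q ((fun z : ℂ => pl z) ⁻¹' Ω) = Fq 2 q Ω := by
  have h' := pl_admissible h
  unfold Fq
  rw [iso_lam pl, iso_volume pl, iso_torsion pl (exists_torsion h'.1 h'.2.2)
    (fun w W w' W' h1 h2 => integral_congr_ae (h1.unique h'.1 h'.2.2 h2))]

/-- Existence and uniqueness of the torsion function in `ℝ²` (so that `torsion` is what it
should be). -/
theorem exists_torsion_two {Ω : Set (EuclideanSpace ℝ (Fin 2))} (h : Admissible Ω) :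
    ∃ w W, IsTorsion Ω w W ∧ torsion Ω = ∫ x, w x := by
  have h' := pl_admissible h
  obtain ⟨w, W, hw⟩ := exists_torsion h'.1 h'.2.2
  have h2 := iso_isTorsion pl.symm hw
  have e1 : (fun y : EuclideanSpace ℝ (Fin 2) => pl.symm y) ⁻¹' ((fun x : ℂ => pl x) ⁻¹' Ω) =
      Ω := by
    ext y; simp
  rw [e1] at h2
  refine ⟨_, _, h2, ?_⟩
  rw [iso_integral pl.symm, ← iso_torsion pl (exists_torsion h'.1 h'.2.2)
    (fun w W w' W' h1 h2 => integral_congr_ae (h1.unique h'.1 h'.2.2 h2)),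
    hw.torsion_eq h'.1 h'.2.2]

theorem transfer
    (h : ∃ q₀ : ℝ, 1 < q₀ ∧ ∀ q, 1 < q → q < q₀ → ∀ Ω : Set ℂ, Admissible Ω →
      ∃ Ω' : Set ℂ, Admissible Ω' ∧ Fq 2 q Ω < Fq 2 q Ω') :
    ∃ q₀ : ℝ, 1 < q₀ ∧ ∀ q : ℝ, 1 < q → q < q₀ →
      BddAbove {t | ∃ Ω : Set (EuclideanSpace ℝ (Fin 2)), Admissible Ω ∧ t = Fq 2 q Ω} ∧
      ∀ Ω : Set (EuclideanSpace ℝ (Fin 2)), Admissible Ω →
        Fq 2 q Ω <
          sSup {t | ∃ Ω' : Set (EuclideanSpace ℝ (Fin 2)), Admissible Ω' ∧ t = Fq 2 q Ω'} := by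
  obtain ⟨q₀, hq₀, h⟩ := h
  obtain ⟨C, -, hC⟩ := exists_Fq_le
  refine ⟨q₀, hq₀, fun q hq hq' => ?_⟩
  have hb : BddAbove {t | ∃ Ω : Set (EuclideanSpace ℝ (Fin 2)), Admissible Ω ∧ t = Fq 2 q Ω} := by
    refine ⟨C ^ (q - 1), ?_⟩
    rintro t ⟨Ω, hΩ, rfl⟩
    rw [← pl_Fq hΩ]
    exact hC _ (pl_admissible hΩ) q hq.le
  refine ⟨hb, fun Ω hΩ => ?_⟩
  obtain ⟨Ω₂, h2, h3⟩ := h q hq hq' _ (pl_admissible hΩ)
  rw [pl_Fq hΩ] at h3
  have h4 := pl_symm_admissible h2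
  have h5 := pl_Fq h4 q
  have e1 : (fun z : ℂ => pl z) ⁻¹' ((fun z : EuclideanSpace ℝ (Fin 2) => pl.symm z) ⁻¹' Ω₂) =
      Ω₂ := by
    ext y; simp
  rw [e1] at h5
  rw [h5] at h3
  exact h3.trans_le (le_csSup hb ⟨_, h4, rfl⟩)

end Pool.Agent.H41.Ev
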